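import Pool.Agent.H687R2.IntPoly

/-!
# Polynomial-time functions on subtypes, iteration on a valid domain
-/

namespace Pool.Agent.NPC

instance instTEncSubtype {α : Type} [TEnc α] {p : α → Prop} : TEnc (Subtype p) :=
  ⟨fun a => toT a.1, fun _ _ h => Subtype.ext (TEnc.inj h)⟩

theorem sz_subtype {α : Type} [TEnc α] {p : α → Prop} (a : Subtype p) : sz a = sz a.1 := rfl

namespace Poly

variable {α β γ δ σ : Type} [TEnc α] [TEnc β] [TEnc γ] [TEnc δ] [TEnc σ]

theorem val {p : β → Prop} {f : α → Subtype p} (hf : Poly f) : Poly (fun a => (f a).1) := hf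

theorem mkSub {p : β → Prop} {f : α → β} (hf : Poly f) (h : ∀ a, p (f a)) :
    Poly (fun a => (⟨f a, h a⟩ : Subtype p)) := hf

theorem restrict {p : α → Prop} {f : α → β} (hf : Poly f) :
    Poly (fun a : Subtype p => f a.1) := hf.comp (val id)

/-- Apply a function that is only known to be polynomial-time on a subtype. -/
theorem compSub {V : β → Prop} {g : β → γ} {f : α → β} (hg : Poly (fun b : Subtype V => g b.1))
    (hf : Poly f) (h : ∀ a, V (f a)) : Poly (fun a => g (f a)) :=
  comp (g := fun b : Subtype V => g b.1) hg (mkSub hf h)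

/-- Bounded iteration of a function that is polynomial-time on a valid domain. -/
theorem iterOn {l : α → List β} {s : α → σ} {F : σ → σ} {V : σ → Prop} (hl : Poly l)
    (hs : Poly s) (hVs : ∀ a, V (s a)) (hVF : ∀ x, V x → V (F x))
    (hF : Poly (fun x : Subtype V => F x.1)) (q : Polynomial ℕ)
    (hq : ∀ a, ∀ k ≤ sz (l a), sz (F^[k] (s a)) ≤ q.eval (sz a)) :
    Poly (fun a => F^[sz (l a)] (s a)) := by
  set F' : Subtype V → Subtype V := fun x => ⟨F x.1, hVF x.1 x.2⟩ with hF'
  have key : ∀ (k : ℕ) (x : Subtype V), (F'^[k] x).1 = F^[k] x.1 := by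
    intro k
    induction k with
    | zero => intro x; rfl
    | succ k ih => intro x; rw [Function.iterate_succ_apply, Function.iterate_succ_apply, ih]
  have h1 : Poly F' := mkSub hF _
  have h2 := PC.iterate (α := α) (ea := bits) (β := Subtype V) (tb := toT)
    (n := fun a => toT (l a)) (x := fun a => ⟨s a, hVs a⟩) (f := F') hl (mkSub hs hVs) h1 q (by
      intro a k hk
      have h3 : toT (F'^[k] ⟨s a, hVs a⟩) = toT (F^[k] (s a)) := by
        rw [← key k ⟨s a, hVs a⟩]; rfl
      rw [h3]
      exact hq a k hk)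
  have h3 : Poly (fun a => F'^[sz (l a)] ⟨s a, hVs a⟩) := h2
  exact (val h3).congr fun a => key _ _

end Poly

end Pool.Agent.NPC
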