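import Pool.Agent.H687R2.LLLMath

/-!
# Lattice reduction of lists of integer vectors
-/

namespace Pool.Agent.H687R2.LLL

open scoped InnerProductSpace

set_option linter.unusedSectionVars false

/-- The dot product. -/
def dot (u v : List ℤ) : ℤ := (List.zipWith (fun x y => x * y) u v).sum

/-- `c u - d v`. -/
def comb (c : ℤ) (u : List ℤ) (d : ℤ) (v : List ℤ) : List ℤ :=
  List.zipWith (fun x y => c * x - d * y) u v

/-- Divide all entries. -/
def divV (u : List ℤ) (n : ℕ) : List ℤ := u.map fun x => x / (n : ℤ)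

/-- The Euclidean vector with a given list of entries. -/
noncomputable def lv (N : ℕ) (l : List ℤ) : EuclideanSpace ℝ (Fin N) :=
  WithLp.toLp 2 fun p : Fin N => ((l.getD p 0 : ℤ) : ℝ)

theorem lv_apply (N : ℕ) (l : List ℤ) (p : Fin N) : lv N l p = ((l.getD p 0 : ℤ) : ℝ) := rfl

theorem length_comb {N : ℕ} {u v : List ℤ} (hu : u.length = N) (hv : v.length = N) (c d : ℤ) :
    (comb c u d v).length = N := by
  simp [comb, hu, hv]

theorem getD_zipWith {N : ℕ} {u v : List ℤ} (hu : u.length = N) (hv : v.length = N) (f : ℤ → ℤ → ℤ)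
    {p : ℕ} (hp : p < N) : (List.zipWith f u v).getD p 0 = f (u.getD p 0) (v.getD p 0) := by
  rw [List.getD_eq_getElem _ _ (by simp [hu, hv, hp]), List.getD_eq_getElem _ _ (by omega),
    List.getD_eq_getElem _ _ (by omega), List.getElem_zipWith]

theorem lv_comb {N : ℕ} {u v : List ℤ} (hu : u.length = N) (hv : v.length = N) (c d : ℤ) :
    lv N (comb c u d v) = (c : ℝ) • lv N u - (d : ℝ) • lv N v := by
  ext p
  simp only [lv_apply, PiLp.sub_apply, PiLp.smul_apply, smul_eq_mul, comb]
  rw [getD_zipWith hu hv _ p.2]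
  push_cast
  ring

theorem sum_eq_sum_getD {N : ℕ} {u : List ℤ} (hu : u.length = N) :
    u.sum = ∑ p : Fin N, u.getD p 0 := by
  subst hu
  rw [← List.sum_ofFn]
  congr 1
  apply List.ext_getElem
  · simp
  · intro i h1 h2
    simp at h2
    simp [List.getD_eq_getElem _ _ h1]

theorem dot_eq {N : ℕ} {u v : List ℤ} (hu : u.length = N) (hv : v.length = N) :
    ((dot u v : ℤ) : ℝ) = ⟪lv N u, lv N v⟫_ℝ := by
  rw [dot, sum_eq_sum_getD (N := N) (by simp [hu, hv]), PiLp.inner_apply]
  push_cast
  refine Finset.sum_congr rfl fun p _ => ?_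
  rw [getD_zipWith hu hv _ p.2, lv_apply, lv_apply]
  simp [mul_comm]

theorem isInt_lv (N : ℕ) (l : List ℤ) : IsInt (lv N l) := fun j => ⟨_, lv_apply N l j⟩

theorem exists_lv {N : ℕ} {x : EuclideanSpace ℝ (Fin N)} (hx : IsInt x) :
    ∃ l : List ℤ, l.length = N ∧ lv N l = x := by
  choose f hf using hx
  refine ⟨List.ofFn f, by simp, ?_⟩
  ext p
  rw [lv_apply, hf, List.getD_eq_getElem _ _ (by simp)]
  simp

theorem lv_inj {N : ℕ} {u v : List ℤ} (hu : u.length = N) (hv : v.length = N)
    (h : lv N u = lv N v) : u = v := by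
  apply List.ext_getElem (by omega)
  intro i h1 h2
  have h3 := congrArg (fun x => x ⟨i, by omega⟩) h
  simp only [lv_apply] at h3
  rw [List.getD_eq_getElem _ _ h1, List.getD_eq_getElem _ _ h2] at h3
  exact_mod_cast h3

theorem divV_eq {N : ℕ} {u w : List ℤ} (hu : u.length = N) (hw : w.length = N) {n : ℕ}
    (hn : n ≠ 0) (h : lv N u = (n : ℝ) • lv N w) : divV u n = w := by
  apply List.ext_getElem (by simp [divV, hu, hw])
  intro i h1 h2
  have h0 : i < u.length := by omega
  have h3 := congrArg (fun x => x ⟨i, by omega⟩) h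
  simp only [lv_apply, PiLp.smul_apply, smul_eq_mul] at h3
  rw [List.getD_eq_getElem _ _ h0, List.getD_eq_getElem _ _ h2] at h3
  have h4 : u[i] = (n : ℤ) * w[i] := by exact_mod_cast h3
  simp only [divV, List.getElem_map]
  rw [h4]
  exact Int.mul_ediv_cancel_left _ (by exact_mod_cast hn)

/-- The sequence of vectors of a list of vectors. -/
noncomputable def sq (N : ℕ) (B : List (List ℤ)) : ℕ → EuclideanSpace ℝ (Fin N) :=
  fun j => lv N (B.getD j [])

/-- One step of the integral Gram-Schmidt process. -/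
def gsStep (bi : List ℤ) (s : List ℤ × ℕ) (t : List ℤ × List ℤ × ℕ) : List ℤ × ℕ :=
  (divV (comb t.2.2 s.1 (dot bi t.2.1) t.2.1) s.2, t.2.2)

/-- Rounding of `a / d` to a nearest integer. -/
def rnd (a : ℤ) (d : ℕ) : ℤ := (2 * a + d) / ((2 * d : ℕ) : ℤ)

/-- One step of size reduction. -/
def redStep (s : List ℤ) (t : List ℤ × List ℤ × ℕ) : List ℤ :=
  comb 1 s (rnd (dot s t.2.1) t.2.2) t.1

/-- Process one basis vector. The triples are the reduced vector, the integral Gram-Schmidt vector
and the Gram determinant. -/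
def gsrStep (acc : List (List ℤ × List ℤ × ℕ)) (bi : List ℤ) : List (List ℤ × List ℤ × ℕ) :=
  acc ++ [(acc.foldr (fun t s => redStep s t) bi, (acc.foldl (gsStep bi) (bi, 1)).1,
    (dot (acc.foldl (gsStep bi) (bi, 1)).1 bi).toNat)]

/-- Gram-Schmidt and size reduction. -/
def gsr (B : List (List ℤ)) : List (List ℤ × List ℤ × ℕ) := B.foldl gsrStep []

/-- Integral combinations of the first `k` vectors. -/
def Zs {E : Type*} [AddCommGroup E] (b : ℕ → E) (k : ℕ) : Submodule ℤ E :=
  Submodule.span ℤ (b '' Set.Iio k)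

section Zs

variable {E : Type*} [NormedAddCommGroup E] [InnerProductSpace ℝ E] [FiniteDimensional ℝ E]
  {b b' : ℕ → E}

theorem Zs_le_W {j : ℕ} {x : E} (hx : x ∈ Zs b j) : x ∈ W b j := by
  refine Submodule.span_induction (p := fun y _ => y ∈ W b j) ?_ ?_ ?_ ?_ hx
  · intro y hy
    exact Submodule.subset_span hy
  · exact Submodule.zero_mem _
  · intro x y _ _ hx hy
    exact Submodule.add_mem _ hx hy
  · intro c x _ hx
    rw [← Int.cast_smul_eq_zsmul ℝ]
    exact Submodule.smul_mem _ _ hx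

theorem Zs_mono {i j : ℕ} (h : i ≤ j) : Zs b i ≤ Zs b j :=
  Submodule.span_mono (Set.image_mono (Set.Iio_subset_Iio h))

theorem mem_Zs {i j : ℕ} (h : i < j) : b i ∈ Zs b j := Submodule.subset_span ⟨i, h, rfl⟩

theorem Zs_succ (i : ℕ) : Zs b (i + 1) = Zs b i ⊔ Submodule.span ℤ {b i} := by
  unfold Zs
  rw [← Submodule.span_union]
  congr 1
  ext x
  simp only [Set.mem_image, Set.mem_Iio, Set.union_singleton, Set.mem_insert_iff]
  constructor
  · rintro ⟨j, hj, rfl⟩
    by_cases h : j = i
    · left; rw [h]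
    · right; exact ⟨j, by omega, rfl⟩
  · rintro (rfl | ⟨j, hj, rfl⟩)
    · exact ⟨i, by omega, rfl⟩
    · exact ⟨j, by omega, rfl⟩

theorem Zs_eq_of_sub_mem {k : ℕ} (h : ∀ j < k, b' j - b j ∈ Zs b j) :
    ∀ j ≤ k, Zs b' j = Zs b j := by
  intro j
  induction j with
  | zero => intro _; simp [Zs]
  | succ j ih =>
    intro hj
    rw [Zs_succ, Zs_succ, ih (by omega)]
    have h1 := h j (by omega)
    apply le_antisymm
    · apply sup_le le_sup_left
      rw [Submodule.span_singleton_le_iff_mem, Submodule.mem_sup]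
      exact ⟨_, h1, _, Submodule.mem_span_singleton_self _, by abel⟩
    · apply sup_le le_sup_left
      rw [Submodule.span_singleton_le_iff_mem, Submodule.mem_sup]
      exact ⟨-(b' j - b j), Submodule.neg_mem _ h1, _, Submodule.mem_span_singleton_self _, by abel⟩

theorem Zs_sw {i j : ℕ} (h : i + 2 ≤ j) : Zs (sw b i) j = Zs b j := by
  unfold Zs
  congr 1
  ext x
  simp only [Set.mem_image, Set.mem_Iio]
  constructor
  · rintro ⟨p, hp, rfl⟩
    exact ⟨_, swap_lt h hp, rfl⟩
  · rintro ⟨p, hp, rfl⟩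
    refine ⟨_, swap_lt h hp, ?_⟩
    simp [sw]

end Zs

/-- The specification of a triple. -/
structure TripleSpec (N : ℕ) (b : ℕ → EuclideanSpace ℝ (Fin N)) (j : ℕ)
    (t : List ℤ × List ℤ × ℕ) : Prop where
  len1 : t.1.length = N
  len2 : t.2.1.length = N
  mem : lv N t.1 - b j ∈ Zs b j
  red : ∀ l < j, |⟪g b l, lv N t.1⟫_ℝ| ≤ ‖g b l‖ ^ 2 / 2
  v_eq : lv N t.2.1 = gd b j • g b j
  d_eq : (t.2.2 : ℝ) = gd b (j + 1)

section Spec

variable {N k : ℕ} {b : ℕ → EuclideanSpace ℝ (Fin N)}

theorem gsStep_spec (hb : ∀ j, IsInt (b j)) (hp : Pos b k) {i : ℕ} (hi : i < k) {bi : List ℤ}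
    (hbi : bi.length = N) (hbi2 : lv N bi = b i) {acc : List (List ℤ × List ℤ × ℕ)}
    (hacc : acc.length = i) (hspec : ∀ j (hj : j < acc.length), TripleSpec N b j acc[j]) :
    ∀ j ≤ i, ((acc.take j).foldl (gsStep bi) (bi, 1)).1.length = N ∧
      lv N ((acc.take j).foldl (gsStep bi) (bi, 1)).1 = gd b j • P b j (b i) ∧
      (((acc.take j).foldl (gsStep bi) (bi, 1)).2 : ℝ) = gd b j := by
  intro j
  induction j with
  | zero =>
    intro _
    simp [hbi, hbi2, gd_zero, P_zero]
  | succ j ih =>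
    intro hj
    obtain ⟨h1, h2, h3⟩ := ih (by omega)
    have hj' : j < acc.length := by omega
    rw [List.take_succ_eq_append_getElem hj', List.foldl_append, List.foldl_cons, List.foldl_nil]
    set s := (acc.take j).foldl (gsStep bi) (bi, 1)
    have sp := hspec j hj'
    obtain ⟨u, hu, hu2⟩ := exists_lv (isInt_gd_smul_P (b := b) (i := j + 1) (x := b i)
      (fun p _ => hb p) (hb i))
    have hgj := hp j (by omega)
    have hgj1 := hp (j + 1) (by omega)
    have hg := hp.g_pos (j := j) (by omega)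
    have h4 : divV (comb acc[j].2.2 s.1 (dot bi acc[j].2.1) acc[j].2.1) s.2 = u := by
      refine divV_eq (N := N) (length_comb h1 sp.len2 _ _) hu ?_ ?_
      · intro h0
        rw [h0] at h3
        simp at h3
        exact hgj.ne h3
      · rw [lv_comb h1 sp.len2, dot_eq hbi sp.len2, hbi2, h2, sp.v_eq, hu2, h3, P_succ,
          inner_smul_right, Int.cast_natCast, sp.d_eq, real_inner_comm]
        have e1 : gd b (j + 1) = gd b j * ‖g b j‖ ^ 2 := gd_succ hgj.ne'
        have hn : ‖g b j‖ ≠ 0 := fun h => by rw [h] at hg; simp at hg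
        rw [e1]
        simp only [smul_sub, smul_smul]
        congr 1
        · congr 1; ring
        · congr 1; field_simp
    refine ⟨?_, ?_, ?_⟩
    · change (divV _ _).length = N
      rw [h4, hu]
    · change lv N (divV _ _) = _
      rw [h4, hu2]
    · exact sp.d_eq

theorem rnd_spec (a : ℤ) {d : ℕ} (hd : 0 < d) : |(a : ℝ) / d - rnd a d| ≤ 1 / 2 := by
  have h1 := Int.emod_add_mul_ediv (2 * a + d) ((2 * d : ℕ) : ℤ)
  have h2 := Int.emod_nonneg (2 * a + d) (b := ((2 * d : ℕ) : ℤ)) (by push_cast; omega)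
  have h3 := Int.emod_lt_of_pos (2 * a + d) (b := ((2 * d : ℕ) : ℤ)) (by push_cast; omega)
  unfold rnd
  set q := (2 * a + d) / ((2 * d : ℕ) : ℤ)
  set r := (2 * a + d) % ((2 * d : ℕ) : ℤ)
  have hd' : (0 : ℝ) < d := by exact_mod_cast hd
  have h1' : (r : ℝ) + 2 * d * q = 2 * a + d := by exact_mod_cast h1
  have h2' : (0 : ℝ) ≤ r := by exact_mod_cast h2
  have h3' : (r : ℝ) < 2 * d := by exact_mod_cast h3
  rw [abs_le]
  constructor
  · rw [le_sub_iff_add_le, le_div_iff₀ hd']
    nlinarith
  · rw [sub_le_iff_le_add, div_le_iff₀ hd']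
    nlinarith

theorem inner_g_of_mem_W {j l : ℕ} (h : j ≤ l) {x : EuclideanSpace ℝ (Fin N)} (hx : x ∈ W b j) :
    ⟪g b l, x⟫_ℝ = 0 := inner_P_mem (W_mono h hx) _

theorem redStep_spec (hp : Pos b k) {i : ℕ} (hi : i < k) {bi : List ℤ}
    (hbi : bi.length = N) (hbi2 : lv N bi = b i) {acc : List (List ℤ × List ℤ × ℕ)}
    (hacc : acc.length = i) (hspec : ∀ j (hj : j < acc.length), TripleSpec N b j acc[j]) :
    ∀ d j, j + d = i → ((acc.drop j).foldr (fun t s => redStep s t) bi).length = N ∧
      lv N ((acc.drop j).foldr (fun t s => redStep s t) bi) - b i ∈ Zs b i ∧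
      ∀ l, j ≤ l → l < i → |⟪g b l, lv N ((acc.drop j).foldr (fun t s => redStep s t) bi)⟫_ℝ| ≤
        ‖g b l‖ ^ 2 / 2 := by
  intro d
  induction d with
  | zero =>
    intro j hj
    have : acc.drop j = [] := List.drop_of_length_le (by omega)
    rw [this]
    simp only [List.foldr_nil]
    refine ⟨hbi, by rw [hbi2, sub_self]; exact Submodule.zero_mem _, ?_⟩
    intro l h1 h2
    omega
  | succ d ih =>
    intro j hj
    obtain ⟨h1, h2, h3⟩ := ih (j + 1) (by omega)
    have hj' : j < acc.length := by omega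
    rw [List.drop_eq_getElem_cons hj', List.foldr_cons]
    set s := (acc.drop (j + 1)).foldr (fun t s => redStep s t) bi
    have sp := hspec j hj'
    have hgj := hp j (by omega)
    have hgj1 := hp (j + 1) (by omega)
    have hg := hp.g_pos (j := j) (by omega)
    have e0 : lv N (redStep s acc[j]) =
        lv N s - (rnd (dot s acc[j].2.1) acc[j].2.2 : ℝ) • lv N acc[j].1 := by
      rw [redStep, lv_comb h1 sp.len1]
      simp
    set r := rnd (dot s acc[j].2.1) acc[j].2.2
    have hmemW : lv N acc[j].1 - b j ∈ W b j := Zs_le_W sp.mem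
    have hmemW1 : lv N acc[j].1 ∈ W b (j + 1) := by
      have := (W b (j + 1)).add_mem (W_mono (Nat.le_succ j) hmemW) (mem_W (Nat.lt_succ_self j))
      simpa using this
    refine ⟨length_comb h1 sp.len1 _ _, ?_, ?_⟩
    · rw [e0]
      have hm : lv N acc[j].1 ∈ Zs b i := by
        have := (Zs b i).add_mem (Zs_mono (show j ≤ i by omega) sp.mem) (mem_Zs (show j < i by omega))
        simpa using this
      have := (Zs b i).sub_mem h2 ((Zs b i).smul_mem r hm)
      rw [← Int.cast_smul_eq_zsmul ℝ] at this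
      convert this using 1
      abel
    · intro l hl1 hl2
      rw [e0, inner_sub_right, inner_smul_right]
      rcases Nat.lt_or_ge j l with h | h
      · rw [inner_g_of_mem_W (b := b) (j := j + 1) (l := l) h hmemW1, mul_zero, sub_zero]
        exact h3 l (by omega) hl2
      · have hl : l = j := by omega
        subst hl
        have e1 : ⟪g b l, lv N acc[l].1⟫_ℝ = ‖g b l‖ ^ 2 := by
          have : lv N acc[l].1 = b l + (lv N acc[l].1 - b l) := by abel
          rw [this, inner_add_right, inner_g_of_mem_W le_rfl hmemW, add_zero, inner_g_b]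
        rw [e1]
        have e2 : ((dot s acc[l].2.1 : ℤ) : ℝ) / acc[l].2.2 = ⟪g b l, lv N s⟫_ℝ / ‖g b l‖ ^ 2 := by
          rw [dot_eq h1 sp.len2, sp.v_eq, sp.d_eq, gd_succ hgj.ne', inner_smul_right,
            real_inner_comm, mul_div_mul_left _ _ hgj.ne']
        have hd : 0 < acc[l].2.2 := by
          have : (0 : ℝ) < acc[l].2.2 := by rw [sp.d_eq]; exact hgj1
          exact_mod_cast this
        have e3 := rnd_spec (dot s acc[l].2.1) hd
        rw [e2] at e3
        have hn : ‖g b l‖ ≠ 0 := fun h => by rw [h] at hg; simp at hg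
        have e4 : ⟪g b l, lv N s⟫_ℝ - r * ‖g b l‖ ^ 2 =
            (⟪g b l, lv N s⟫_ℝ / ‖g b l‖ ^ 2 - r) * ‖g b l‖ ^ 2 := by
          field_simp
        rw [e4, abs_mul, abs_of_pos hg]
        nlinarith

theorem gsr_spec (B : List (List ℤ)) (hB : B.length = k) (hlen : ∀ u ∈ B, u.length = N)
    (hp : Pos (sq N B) k) :
    ∀ i ≤ k, ((B.take i).foldl gsrStep []).length = i ∧
      ∀ j (hj : j < ((B.take i).foldl gsrStep []).length),
        TripleSpec N (sq N B) j ((B.take i).foldl gsrStep [])[j] := by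
  intro i
  induction i with
  | zero => intro _; simp
  | succ i ih =>
    intro hi
    obtain ⟨h1, h2⟩ := ih (by omega)
    have hi' : i < B.length := by omega
    rw [List.take_succ_eq_append_getElem hi', List.foldl_append, List.foldl_cons, List.foldl_nil]
    set acc := (B.take i).foldl gsrStep []
    have hb : ∀ j, IsInt (sq N B j) := fun j => isInt_lv _ _
    have hbi : (B[i]).length = N := hlen _ (List.getElem_mem _)
    have hbi2 : lv N B[i] = sq N B i := by
      rw [sq, List.getD_eq_getElem _ _ hi']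
    refine ⟨by simp [gsrStep, h1], ?_⟩
    intro j hj
    rcases Nat.lt_or_ge j i with h | h
    · have : (gsrStep acc B[i])[j] = acc[j]'(by omega) := by
        simp only [gsrStep]
        rw [List.getElem_append_left]
      rw [this]
      exact h2 j (by omega)
    · have hji : j = i := by simp [gsrStep, h1] at hj; omega
      subst hji
      have e : (gsrStep acc B[j])[j] = (acc.foldr (fun t s => redStep s t) B[j],
          (acc.foldl (gsStep B[j]) (B[j], 1)).1,
          (dot (acc.foldl (gsStep B[j]) (B[j], 1)).1 B[j]).toNat) := by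
        simp only [gsrStep]
        rw [List.getElem_append_right (by omega)]
        simp
      rw [e]
      obtain ⟨a1, a2, a3⟩ := gsStep_spec hb hp (show j < k by omega) hbi hbi2 h1 h2 j le_rfl
      rw [List.take_of_length_le (by omega)] at a1 a2 a3
      obtain ⟨c1, c2, c3⟩ := redStep_spec hp (show j < k by omega) hbi hbi2 h1 h2 j 0 (by omega)
      rw [List.drop_zero] at c1 c2 c3
      refine ⟨c1, a1, c2, fun l hl => c3 l (by omega) hl, a2, ?_⟩
      simp only
      have hgj := hp j (by omega)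
      have hd : ((dot (acc.foldl (gsStep B[j]) (B[j], 1)).1 B[j] : ℤ) : ℝ) =
          gd (sq N B) (j + 1) := by
        rw [dot_eq a1 hbi, a2, hbi2, inner_smul_left, gd_succ hgj.ne']
        change _ * ⟪g (sq N B) j, _⟫_ℝ = _
        rw [inner_g_b]
        rfl
      rw [← hd]
      have hpos : (0 : ℝ) ≤ (dot (acc.foldl (gsStep B[j]) (B[j], 1)).1 B[j] : ℤ) := by
        rw [hd]; exact (hp (j + 1) (by omega)).le
      have hpos' : 0 ≤ dot (acc.foldl (gsStep B[j]) (B[j], 1)).1 B[j] := by exact_mod_cast hpos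
      have := Int.toNat_of_nonneg hpos'
      exact_mod_cast congrArg (fun z : ℤ => (z : ℝ)) this

end Spec

end Pool.Agent.H687R2.LLL
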