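import Pool.Agent.H687R2.LLLPoly

/-!
# Lattice reduction is polynomial-time computable, continued
-/

namespace Pool.Agent.H687R2.LLL

open Pool.Agent.NPC
open scoped InnerProductSpace

theorem norm_sq_lv {N : ℕ} {u : List ℤ} (hu : u.length = N) : ‖lv N u‖ ^ 2 = (dot u u : ℤ) := by
  rw [dot_eq hu hu, real_inner_self_eq_norm_sq]

theorem norm_sq_lv_lt {N : ℕ} {u : List ℤ} (hu : u.length = N) : ‖lv N u‖ ^ 2 ≤ 4 ^ sz u := by
  rw [norm_sq_lv hu]
  have h1 := natAbs_dot_le u u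
  have h2 := nrm_lt u
  have h3 : dot u u ≤ ((dot u u).natAbs : ℤ) := by omega
  have h4 : (dot u u).natAbs ≤ 2 ^ sz u * 2 ^ sz u := h1.trans (Nat.mul_le_mul h2.le h2.le)
  have h5 : dot u u ≤ ((2 ^ sz u * 2 ^ sz u : ℕ) : ℤ) := by omega
  have h6 : ((dot u u : ℤ) : ℝ) ≤ ((2 ^ sz u * 2 ^ sz u : ℕ) : ℤ) := by exact_mod_cast h5
  refine h6.trans ?_
  push_cast
  rw [← mul_pow]
  norm_num

theorem sz_of_norm {N E : ℕ} {u : List ℤ} (hu : u.length = N) (h : ‖lv N u‖ ^ 2 ≤ 4 ^ E) :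
    sz u ≤ N * (4 * E + 10) + 1 := by
  refine (sz_le_length_mul u (4 * E + 9) fun x hx => ?_).trans (by rw [hu])
  refine (sz_of_lt (M := E + 1) ?_).trans (by omega)
  obtain ⟨p, hp, rfl⟩ := List.getElem_of_mem hx
  have h1 : (lv N u ⟨p, by omega⟩) ^ 2 ≤ ‖lv N u‖ ^ 2 := by
    rw [EuclideanSpace.norm_sq_eq]
    have := Finset.single_le_sum (f := fun i => ‖lv N u i‖ ^ 2) (fun i _ => by positivity)
      (Finset.mem_univ (⟨p, by omega⟩ : Fin N))
    simpa only [Real.norm_eq_abs, sq_abs] using this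
  rw [lv_apply, List.getD_eq_getElem _ _ hp] at h1
  have h2 : ((u[p] : ℤ) : ℝ) ^ 2 ≤ (2 ^ E) ^ 2 := by
    refine (h1.trans h).trans_eq ?_
    rw [← pow_mul, mul_comm, pow_mul]; norm_num
  have h3 : |((u[p] : ℤ) : ℝ)| ≤ 2 ^ E := abs_le_of_sq_le_sq h2 (by positivity)
  have h4 : |u[p]| ≤ 2 ^ E := by exact_mod_cast h3
  have h5 := Int.abs_eq_natAbs u[p]
  have h6 : u[p].natAbs ≤ 2 ^ E := by exact_mod_cast (h5 ▸ h4)
  have h7 : 2 ^ E < 2 ^ (E + 1) := Nat.pow_lt_pow_right (by norm_num) (by omega)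
  omega

theorem gd_le {E : Type*} [NormedAddCommGroup E] [InnerProductSpace ℝ E] [FiniteDimensional ℝ E]
    {b : ℕ → E} {k : ℕ} {A : ℝ} (hp : Pos b k) (h : ∀ j < k, ‖g b j‖ ^ 2 ≤ A) :
    ∀ j ≤ k, gd b j ≤ A ^ j := by
  intro j
  induction j with
  | zero => intro _; rw [gd_zero]; simp
  | succ j ih =>
    intro hj
    have h0 : 0 ≤ A := le_trans (by positivity) (h j (by omega))
    rw [gd_succ (hp j (by omega)).ne', pow_succ]
    exact mul_le_mul (ih (by omega)) (h j (by omega)) (by positivity) (pow_nonneg h0 _)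

theorem triple_sz {N k j M L : ℕ} {b : ℕ → EuclideanSpace ℝ (Fin N)}
    {t : List ℤ × List ℤ × ℕ} (h : TripleSpec N b j t) (hp : Pos b k) (hj : j < k)
    (hA : ∀ l < k, ‖g b l‖ ^ 2 ≤ 4 ^ M) (hN : N ≤ L) (hk : k ≤ L) (hM : M ≤ L) :
    sz t ≤ 2 * (L * (4 * (2 * (L * L) + 2 * L) + 10) + 1) + (4 * (2 * (L * L) + 1) + 3) := by
  have hM0 : (1 : ℝ) ≤ 4 ^ M := one_le_pow₀ (by norm_num)
  have hb : lv N t.1 ∈ Zs b (j + 1) ∨ True := Or.inr trivial
  have hd := gd_le hp hA
  -- the reduced vector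
  have h1 : ‖lv N t.1‖ ^ 2 ≤ 4 ^ (2 * (L * L) + 2 * L) := by
    have e1 : ∀ l, P (Function.update b j (lv N t.1)) l = P b l ∨ True := fun _ => Or.inr trivial
    have hg : P b j (lv N t.1) = g b j := by
      have e2 : lv N t.1 = b j + (lv N t.1 - b j) := by abel
      rw [e2, P_add, P_of_mem (Zs_le_W h.mem), add_zero]; rfl
    rw [norm_sq_eq_sum b j, hg]
    have e3 : ∑ l ∈ Finset.range j, ⟪g b l, lv N t.1⟫_ℝ ^ 2 / ‖g b l‖ ^ 2 ≤
        ∑ l ∈ Finset.range j, (4 : ℝ) ^ M := by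
      refine Finset.sum_le_sum fun l hl => ?_
      have hl' := Finset.mem_range.1 hl
      have h2 := h.red l hl'
      have h3 := hA l (by omega)
      have h4 : 0 ≤ ‖g b l‖ ^ 2 := by positivity
      rcases h4.eq_or_lt with h5 | h5
      · rw [← h5]; simp
      · rw [div_le_iff₀ h5, ← sq_abs]
        nlinarith [abs_nonneg (⟪g b l, lv N t.1⟫_ℝ)]
    rw [Finset.sum_const, Finset.card_range, nsmul_eq_mul] at e3
    have e4 := hA j hj
    have e5 : (j : ℝ) + 1 ≤ 4 ^ L := by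
      have : j + 1 ≤ 4 ^ L := by
        have := (Nat.lt_pow_self (n := L) (show 1 < 4 by norm_num))
        omega
      exact_mod_cast this
    calc _ ≤ ((j : ℝ) + 1) * 4 ^ M := by linarith
      _ ≤ 4 ^ L * 4 ^ M := mul_le_mul_of_nonneg_right e5 (by positivity)
      _ = 4 ^ (L + M) := by rw [pow_add]
      _ ≤ _ := pow_le_pow_right₀ (by norm_num) (by nlinarith)
  have h2 : ‖lv N t.2.1‖ ^ 2 ≤ 4 ^ (2 * (L * L) + 2 * L) := by
    rw [h.v_eq, norm_smul, mul_pow, Real.norm_eq_abs, sq_abs]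
    have e1 := hd j hj.le
    have e2 := hA j hj
    have e3 : 0 ≤ gd b j := (hp j hj.le).le
    calc gd b j ^ 2 * ‖g b j‖ ^ 2 ≤ ((4 ^ M) ^ j) ^ 2 * 4 ^ M :=
          mul_le_mul (pow_le_pow_left₀ e3 e1 2) e2 (by positivity) (by positivity)
      _ = 4 ^ (2 * (M * j) + M) := by
          rw [pow_add]; congr 1; rw [← pow_mul, ← pow_mul]; congr 1; ring
      _ ≤ _ := by
          refine pow_le_pow_right₀ (by norm_num) ?_
          have : M * j ≤ L * L := Nat.mul_le_mul hM (by omega)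
          omega
  have h3 : t.2.2 < 2 ^ (2 * (L * L) + 1) := by
    have e1 := hd (j + 1) (by omega)
    rw [← h.d_eq] at e1
    have e2 : ((4 : ℝ) ^ M) ^ (j + 1) = ((2 ^ (2 * (M * (j + 1))) : ℕ) : ℝ) := by
      push_cast
      rw [← pow_mul, pow_mul (2 : ℝ) 2]; norm_num
    rw [e2] at e1
    have e3 : t.2.2 ≤ 2 ^ (2 * (M * (j + 1))) := by exact_mod_cast e1
    have e4 : M * (j + 1) ≤ L * L := Nat.mul_le_mul hM (by omega)
    refine lt_of_le_of_lt e3 (Nat.pow_lt_pow_right (by norm_num) (by omega))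
  have s1 := sz_of_norm h.len1 h1
  have s2 := sz_of_norm h.len2 h2
  have s3 := sz_nat_of_lt h3
  have s4 : N * (4 * (2 * (L * L) + 2 * L) + 10) ≤ L * (4 * (2 * (L * L) + 2 * L) + 10) :=
    Nat.mul_le_mul_right _ hN
  rw [show sz t = sz t.1 + sz t.2 + 1 from sz_pair _ _,
    show sz t.2 = sz t.2.1 + sz t.2.2 + 1 from sz_pair _ _]
  omega

/-- Lists of linearly independent vectors of equal length. -/
def Valid (B : List (List ℤ)) : Prop :=
  ∃ N, (∀ u ∈ B, u.length = N) ∧ Pos (sq N B) B.length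

theorem norm_g_le {E : Type*} [NormedAddCommGroup E] [InnerProductSpace ℝ E]
    [FiniteDimensional ℝ E] (b : ℕ → E) (j : ℕ) : ‖g b j‖ ≤ ‖b j‖ := norm_P_le _

theorem Valid.inv {B : List (List ℤ)} {N : ℕ} (h1 : ∀ u ∈ B, u.length = N)
    (h2 : Pos (sq N B) B.length) :
    Inv N B.length (4 ^ sz B) (Zs (sq N B) B.length) B := by
  refine ⟨rfl, h1, h2, fun j hj => ?_, rfl⟩
  have e1 := norm_g_le (sq N B) j
  have e2 : ‖sq N B j‖ ^ 2 ≤ 4 ^ sz B := by
    rw [sq, List.getD_eq_getElem _ _ hj]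
    refine (norm_sq_lv_lt (h1 _ (List.getElem_mem _))).trans ?_
    exact pow_le_pow_right₀ (by norm_num) (sz_le_of_mem (List.getElem_mem _)).le
  exact (pow_le_pow_left₀ (norm_nonneg _) e1 2).trans e2

theorem Valid.of_inv {N k : ℕ} {A : ℝ} {Z : Submodule ℤ (EuclideanSpace ℝ (Fin N))}
    {B : List (List ℤ)} (h : Inv N k A Z B) : Valid B :=
  ⟨N, h.lens, by rw [h.len]; exact h.pos⟩

theorem Valid.step {B : List (List ℤ)} (h : Valid B) : Valid (lllStep B) := by
  obtain ⟨N, h1, h2⟩ := h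
  exact Valid.of_inv (lllStep_inv (Valid.inv h1 h2))

end Pool.Agent.H687R2.LLL

namespace Pool.Agent.NPC.Poly

open Pool.Agent.H687R2.LLL

variable {α β γ δ σ : Type} [TEnc α] [TEnc β] [TEnc γ] [TEnc δ] [TEnc σ]

theorem gsr : Poly (fun B : {B : List (List ℤ) // Valid B} => H687R2.LLL.gsr B.1) := by
  have hF : Poly (fun p : {B : List (List ℤ) // Valid B} × List (List ℤ × List ℤ × ℕ) × List ℤ =>
      H687R2.LLL.gsrStep p.2.1 p.2.2) := by
    have h0 : Poly (fun p : {B : List (List ℤ) // Valid B} × List (List ℤ × List ℤ × ℕ) × List ℤ =>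
      (p.2.1, p.2.2)) := pair (fst (snd id)) (snd (snd id))
    have := gsrStep.comp h0
    exact this
  have hl : Poly (fun B : {B : List (List ℤ) // Valid B} => B.1) := val id
  have := foldl (s := fun _ => ([] : List (List ℤ × List ℤ × ℕ)))
    (F := fun _ acc bi => H687R2.LLL.gsrStep acc bi) hl (const []) hF
    (Polynomial.X * ((Polynomial.C 2 * (Polynomial.X * (Polynomial.C 4 * (Polynomial.C 2 *
      (Polynomial.X * Polynomial.X) + Polynomial.C 2 * Polynomial.X) + Polynomial.C 10) +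
      Polynomial.C 1) + (Polynomial.C 4 * (Polynomial.C 2 * (Polynomial.X * Polynomial.X) +
      Polynomial.C 1) + Polynomial.C 3)) + Polynomial.C 1) + Polynomial.C 1) ?_
  · exact this
  rintro ⟨B, N, h1, h2⟩ i hi
  have hI := Valid.inv h1 h2
  obtain ⟨e1, e2⟩ := gsr_spec B rfl h1 h2 i hi
  simp only [Polynomial.eval_add, Polynomial.eval_mul, Polynomial.eval_C, Polynomial.eval_X,
    sz_subtype]
  have hB := length_lt_sz B
  refine (sz_le_length_mul _ _ fun t ht => ?_).trans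
    (Nat.add_le_add_right (Nat.mul_le_mul_right _ ?_) _)
  · obtain ⟨j, hj, rfl⟩ := List.getElem_of_mem ht
    have hN : N ≤ sz B := by
      have hB0 : 0 < B.length := by rw [e1] at hj; simp only at hi; omega
      have e3 := h1 _ (List.getElem_mem (h := hB0))
      have e4 := length_lt_sz B[0]
      have e5 := sz_le_of_mem (List.getElem_mem (h := hB0))
      omega
    exact triple_sz (e2 j hj) h2 (by rw [e1] at hj; simp only at hi; omega) hI.gle hN hB.le le_rfl
  · rw [e1]; simp only at hi; omega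


theorem fsts {T : α → List (List ℤ × List ℤ × ℕ)} (hT : Poly T) :
    Poly (fun a => H687R2.LLL.fsts (T a)) :=
  map (F := fun (_ : α) (t : List ℤ × List ℤ × ℕ) => t.1) hT (fst (snd id))

theorem tD {T : α → List (List ℤ × List ℤ × ℕ)} {i : α → ℕ} (hT : Poly T) (hi : Poly i) :
    Poly (fun a => H687R2.LLL.tD (T a) (i a)) := by
  have h1 : Poly (fun a => (T a).getD (i a - 1) ([], [], 0)) :=
    getD hT (sub hi (const 1)) (const _)
  exact cond (decide_eq hi (const 0)) (const 1) (snd (snd h1))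

theorem swapIdx {T : α → List (List ℤ × List ℤ × ℕ)} (hT : Poly T) :
    Poly (fun a => H687R2.LLL.swapIdx (T a)) := by
  have h1 : Poly (fun a => List.range ((T a).length - 1)) :=
    UPoly.range (UPoly.of_le (sub (length hT) (const 1)) (UPoly.length hT) (fun a => Nat.sub_le _ _))
  have hT' : Poly (fun p : α × ℕ => T p.1) := hT.comp (fst id)
  have hi : Poly (fun p : α × ℕ => p.2) := snd id
  have h2 : Poly (fun p : α × ℕ => decide (2 * H687R2.LLL.tD (T p.1) (p.2 + 2) *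
      H687R2.LLL.tD (T p.1) p.2 < H687R2.LLL.tD (T p.1) (p.2 + 1) *
      H687R2.LLL.tD (T p.1) (p.2 + 1))) :=
    decide_lt (mul (mul (const 2) (tD hT' (add hi (const 2)))) (tD hT' hi))
      (mul (tD hT' (add hi (const 1))) (tD hT' (add hi (const 1))))
  exact head? (filter (p := fun a i => decide (2 * H687R2.LLL.tD (T a) (i + 2) *
      H687R2.LLL.tD (T a) i < H687R2.LLL.tD (T a) (i + 1) *
      H687R2.LLL.tD (T a) (i + 1))) h1 h2)

theorem swapL {B : α → List (List ℤ)} {i : α → ℕ} (hB : Poly B) (hi : Poly i) :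
    Poly (fun a => H687R2.LLL.swapL (B a) (i a)) := by
  have hB' : Poly (fun p : α × ℕ => B p.1) := hB.comp (fst id)
  have hi' : Poly (fun p : α × ℕ => i p.1) := hi.comp (fst id)
  have hj : Poly (fun p : α × ℕ => p.2) := snd id
  have h1 : Poly (fun p : α × ℕ => (B p.1).getD (bif decide (p.2 = i p.1) then i p.1 + 1 else
      bif decide (p.2 = i p.1 + 1) then i p.1 else p.2) []) :=
    getD hB' (cond (decide_eq hj hi') (add hi' (const 1))
      (cond (decide_eq hj (add hi' (const 1))) hi' hj)) (const [])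
  exact map (F := fun a j => (B a).getD (bif decide (j = i a) then i a + 1 else
      bif decide (j = i a + 1) then i a else j) []) (range_length hB) h1

theorem lllStep : Poly (fun B : {B : List (List ℤ) // Valid B} => H687R2.LLL.lllStep B.1) := by
  have h1 := fsts gsr
  have h2 := swapIdx gsr
  have h3 : Poly (fun p : {B : List (List ℤ) // Valid B} × ℕ =>
      H687R2.LLL.swapL (H687R2.LLL.fsts (H687R2.LLL.gsr p.1.1)) p.2) :=
    swapL (h1.comp (fst id)) (snd id)
  refine (optCases (h := fun B i => H687R2.LLL.swapL (H687R2.LLL.fsts (H687R2.LLL.gsr B.1)) i)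
    h2 h1 h3).congr fun B => ?_
  unfold H687R2.LLL.lllStep
  cases H687R2.LLL.swapIdx (H687R2.LLL.gsr B.1) <;> rfl

end Pool.Agent.NPC.Poly

namespace Pool.Agent.H687R2.LLL

open Pool.Agent.NPC
open scoped InnerProductSpace

/-- The number of iterations. -/
def cnt (T : ℕ) : ℕ := sz (List.replicate (5 * (T * (T * (T + 1))) + 1) ())

theorem cnt_ge (T : ℕ) : 5 * (T * (T * (T + 1))) + 1 ≤ cnt T := by
  have := length_lt_sz (List.replicate (5 * (T * (T * (T + 1))) + 1) ())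
  rw [List.length_replicate] at this
  unfold cnt
  omega

theorem cnt_spec {k T : ℕ} (h : k ≤ T) :
    ((4 : ℝ) ^ T) ^ (k * (k + 1)) < (4 / 3) ^ cnt T := by
  have h1 : (4 : ℝ) ≤ (4 / 3) ^ 5 := by norm_num
  have h2 : k * (k + 1) ≤ T * (T + 1) := Nat.mul_le_mul h (by omega)
  calc ((4 : ℝ) ^ T) ^ (k * (k + 1)) ≤ (4 ^ T) ^ (T * (T + 1)) :=
        pow_le_pow_right₀ (one_le_pow₀ (by norm_num)) h2
    _ = 4 ^ (T * (T * (T + 1))) := by rw [← pow_mul]
    _ ≤ ((4 / 3) ^ 5) ^ (T * (T * (T + 1))) := pow_le_pow_left₀ (by norm_num) h1 _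
    _ = (4 / 3) ^ (5 * (T * (T * (T + 1)))) := by rw [← pow_mul]
    _ < (4 / 3) ^ cnt T := pow_lt_pow_right₀ (by norm_num) (cnt_ge T)

/-- The short vectors of a lattice. -/
def lllShort (B : List (List ℤ)) (T β : ℕ) : List (List ℤ) :=
  shortVecs (lllStep^[cnt T] B) β

theorem lllShort_spec {N T : ℕ} {Z : Submodule ℤ (EuclideanSpace ℝ (Fin N))}
    {B : List (List ℤ)} (h : Inv N B.length (4 ^ T) Z B) (hk : B.length ≤ T) (β : ℕ) :
    (∀ u ∈ lllShort B T β, u.length = N ∧ ‖lv N u‖ ^ 2 ≤ 4 ^ B.length * β ∧ lv N u ∈ Z) ∧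
    (∀ x ∈ Z, ‖x‖ ^ 2 ≤ β →
      x ∈ Submodule.span ℤ {y | ∃ u ∈ lllShort B T β, lv N u = y}) :=
  shortVecs_spec (iter_inv h _) (iter_lov h (one_le_pow₀ (by norm_num)) (cnt_spec hk)) β

theorem iter_sz {N k T : ℕ} {Z : Submodule ℤ (EuclideanSpace ℝ (Fin N))}
    {B : List (List ℤ)} (h : Inv N k (4 ^ T) Z B) (hk : k ≤ T) (t : ℕ) :
    sz (lllStep^[t] B) ≤ sz B + (sz B * ((sz B * (4 * (2 * T) + 10) + 1) + 1) + 1) := by
  cases t with
  | zero => simp
  | succ t =>
    rw [Function.iterate_succ_apply']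
    have h1 := iter_inv h t
    have h2 := lllStep_norm h1
    have h3 := lllStep_inv h1
    refine le_trans ?_ (Nat.le_add_left _ _)
    have h4 := length_lt_sz B
    rw [h.len] at h4
    refine (sz_le_length_mul _ (sz B * (4 * (2 * T) + 10) + 1) fun u hu => ?_).trans
      (Nat.add_le_add_right (Nat.mul_le_mul_right _ (by rw [h3.len]; omega)) _)
    have hN : N ≤ sz B := by
      have h5 : 0 < k := by rw [← h3.len]; exact List.length_pos_of_mem hu
      have h6 : 0 < B.length := by rw [h.len]; exact h5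
      have h7 := h.lens _ (List.getElem_mem (h := h6))
      have h8 := length_lt_sz B[0]
      have h9 := sz_le_of_mem (List.getElem_mem (h := h6))
      omega
    refine (sz_of_norm (E := 2 * T) (h3.lens u hu) ((h2 u hu).trans ?_)).trans
      (Nat.add_le_add_right (Nat.mul_le_mul_right _ hN) _)
    have h5 : (k : ℝ) ≤ 4 ^ T := by
      have : k ≤ 4 ^ T := by
        have := (Nat.lt_pow_self (n := T) (show 1 < 4 by norm_num))
        omega
      exact_mod_cast this
    calc (k : ℝ) * 4 ^ T ≤ 4 ^ T * 4 ^ T := mul_le_mul_of_nonneg_right h5 (by positivity)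
      _ = 4 ^ (2 * T) := by rw [two_mul, pow_add]

end Pool.Agent.H687R2.LLL

namespace Pool.Agent.NPC.Poly

open Pool.Agent.H687R2.LLL

variable {α β γ δ σ : Type} [TEnc α] [TEnc β] [TEnc γ] [TEnc δ] [TEnc σ]

theorem lllRun {B : α → List (List ℤ)} {T : α → ℕ} (hB : Poly B) (hT : UPoly T)
    (hinv : ∀ a, ∃ N Z, Inv N (B a).length (4 ^ T a) Z (B a)) (hk : ∀ a, (B a).length ≤ T a) :
    Poly (fun a => H687R2.LLL.lllStep^[cnt (T a)] (B a)) := by
  obtain ⟨r, hr⟩ := hB.sz_le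
  obtain ⟨u, hu⟩ := Poly.sz_le hT
  have hl : Poly (fun a => List.replicate (5 * (T a * (T a * (T a + 1))) + 1) ()) :=
    UPoly.add (UPoly.mul (UPoly.const 5) (UPoly.mul hT (UPoly.mul hT (UPoly.add hT
      (UPoly.const 1))))) (UPoly.const 1)
  refine iterOn (V := Valid) (F := H687R2.LLL.lllStep) hl hB ?_ (fun x hx => hx.step) lllStep
    (r + (r * ((r * (Polynomial.C 4 * (Polynomial.C 2 * u) + Polynomial.C 10) + Polynomial.C 1)
      + Polynomial.C 1) + Polynomial.C 1)) ?_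
  · intro a
    obtain ⟨N, Z, h⟩ := hinv a
    exact Valid.of_inv h
  · intro a k _
    obtain ⟨N, Z, h⟩ := hinv a
    have h1 := iter_sz h (hk a) k
    have h2 := hr a
    have h3 := hu a
    have h4 := length_lt_sz (List.replicate (T a) ())
    rw [List.length_replicate] at h4
    simp only [Polynomial.eval_add, Polynomial.eval_mul, Polynomial.eval_C]
    refine h1.trans (Nat.add_le_add h2 (Nat.add_le_add_right (Nat.mul_le_mul h2
      (Nat.add_le_add_right (Nat.add_le_add_right (Nat.mul_le_mul h2 ?_) _) _)) _))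
    omega

theorem lllShort {B : α → List (List ℤ)} {T β : α → ℕ} (hB : Poly B) (hT : UPoly T)
    (hβ : Poly β)
    (hinv : ∀ a, ∃ N Z, Inv N (B a).length (4 ^ T a) Z (B a)) (hk : ∀ a, (B a).length ≤ T a) :
    Poly (fun a => H687R2.LLL.lllShort (B a) (T a) (β a)) := by
  have h1 := lllRun hB hT hinv hk
  have hG : Poly (fun a => H687R2.LLL.gsr (H687R2.LLL.lllStep^[cnt (T a)] (B a))) :=
    compSub gsr h1 fun a => by
      obtain ⟨N, Z, h⟩ := hinv a
      exact Valid.of_inv (iter_inv h _)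
  set G := fun a => H687R2.LLL.gsr (H687R2.LLL.lllStep^[cnt (T a)] (B a)) with hGdef
  have hG1 : Poly (fun p : α × ℕ => G p.1) := hG.comp (fst id)
  have hG2 : Poly (fun p : (α × ℕ) × ℕ => G p.1.1) := hG.comp (fst (fst id))
  have hβ2 : Poly (fun p : (α × ℕ) × ℕ => β p.1.1) := hβ.comp (fst (fst id))
  have hj : Poly (fun p : (α × ℕ) × ℕ => p.1.2) := snd (fst id)
  have hi : Poly (fun p : (α × ℕ) × ℕ => p.2) := snd id
  have h2 : Poly (fun p : (α × ℕ) × ℕ => decide (p.1.2 ≤ p.2) &&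
      decide (H687R2.LLL.tD (G p.1.1) (p.2 + 1) ≤ β p.1.1 * H687R2.LLL.tD (G p.1.1) p.2)) :=
    and (decide_le hj hi) (decide_le (tD hG2 (add hi (const 1))) (mul hβ2 (tD hG2 hi)))
  have h3 : Poly (fun p : α × ℕ => (List.range (G p.1).length).any fun i =>
      decide (p.2 ≤ i) && decide (H687R2.LLL.tD (G p.1) (i + 1) ≤
        β p.1 * H687R2.LLL.tD (G p.1) i)) :=
    any (p := fun (p : α × ℕ) i => decide (p.2 ≤ i) && decide (H687R2.LLL.tD (G p.1) (i + 1) ≤
        β p.1 * H687R2.LLL.tD (G p.1) i)) (range_length hG1) h2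
  have h4 : Poly (fun p : α × ℕ => ((G p.1).getD p.2 ([], [], 0)).1) :=
    fst (getD hG1 (snd id) (const _))
  exact map (F := fun a j => ((G a).getD j ([], [], 0)).1) (filter
    (p := fun a j => (List.range (G a).length).any fun i =>
      decide (j ≤ i) && decide (H687R2.LLL.tD (G a) (i + 1) ≤
        β a * H687R2.LLL.tD (G a) i)) (range_length hG) h3) h4

end Pool.Agent.NPC.Poly
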