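import Mathlib

/-!
# Gram-Schmidt orthogonalisation by projections, for lattice reduction
-/

namespace Pool.Agent.H687R2.LLL

open scoped InnerProductSpace

set_option linter.unusedSectionVars false

variable {E : Type*} [NormedAddCommGroup E] [InnerProductSpace ℝ E] [FiniteDimensional ℝ E]

/-- The span of the first `i` vectors. -/
def W (b : ℕ → E) (i : ℕ) : Submodule ℝ E := Submodule.span ℝ (b '' Set.Iio i)

/-- The component of `x` orthogonal to the first `i` vectors. -/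
noncomputable def P (b : ℕ → E) (i : ℕ) (x : E) : E := x - (W b i).starProjection x

/-- The Gram-Schmidt vectors. -/
noncomputable def g (b : ℕ → E) (i : ℕ) : E := P b i (b i)

/-- The Gram determinant of the first `i` vectors. -/
noncomputable def gd (b : ℕ → E) (i : ℕ) : ℝ :=
  (Matrix.of fun p q : Fin i => ⟪b p, b q⟫_ℝ).det

variable (b : ℕ → E) (i : ℕ)

theorem P_add (x y : E) : P b i (x + y) = P b i x + P b i y := by
  simp only [P, map_add]; abel

theorem P_sub (x y : E) : P b i (x - y) = P b i x - P b i y := by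
  simp only [P, map_sub]; abel

theorem P_smul (c : ℝ) (x : E) : P b i (c • x) = c • P b i x := by
  simp only [P, map_smul, smul_sub]

theorem P_zero (x : E) : P b 0 x = x := by
  have : W b 0 = ⊥ := by simp [W]
  simp [P, this]

variable {b i}

theorem inner_P_mem {y : E} (hy : y ∈ W b i) (x : E) : ⟪P b i x, y⟫_ℝ = 0 :=
  Submodule.starProjection_inner_eq_zero x y hy

theorem sub_P_mem (x : E) : x - P b i x ∈ W b i := by
  simp only [P, sub_sub_cancel]
  exact Submodule.starProjection_apply_mem _ _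

theorem P_unique {x v : E} (h1 : ∀ y ∈ W b i, ⟪v, y⟫_ℝ = 0) (h2 : x - v ∈ W b i) :
    P b i x = v := by
  have h3 : P b i x - v ∈ W b i := by
    have := (W b i).sub_mem h2 (sub_P_mem x)
    simpa using this
  have h4 : ⟪P b i x - v, P b i x - v⟫_ℝ = 0 := by
    conv_lhs => rw [inner_sub_left]
    rw [inner_P_mem h3, h1 _ h3, sub_zero]
  exact sub_eq_zero.1 (inner_self_eq_zero.1 h4)

theorem P_of_mem {x : E} (hx : x ∈ W b i) : P b i x = 0 :=
  P_unique (fun y _ => by simp) (by simpa using hx)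

theorem inner_P_P (x y : E) : ⟪P b i x, P b i y⟫_ℝ = ⟪P b i x, y⟫_ℝ := by
  have := inner_P_mem (sub_P_mem (b := b) (i := i) y) x
  rw [inner_sub_right] at this
  linarith

theorem inner_P_comm (x y : E) : ⟪P b i x, y⟫_ℝ = ⟪x, P b i y⟫_ℝ := by
  rw [← inner_P_P, real_inner_comm, inner_P_P, real_inner_comm]

theorem norm_P_le (x : E) : ‖P b i x‖ ≤ ‖x‖ := by
  have h1 : ‖P b i x‖ ^ 2 ≤ ‖P b i x‖ * ‖x‖ := by
    rw [← real_inner_self_eq_norm_sq, inner_P_P]
    exact real_inner_le_norm _ _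
  by_cases h : ‖P b i x‖ = 0
  · rw [h]; exact norm_nonneg _
  · have : 0 < ‖P b i x‖ := lt_of_le_of_ne (norm_nonneg _) (Ne.symm h)
    nlinarith

theorem W_succ : W b (i + 1) = W b i ⊔ Submodule.span ℝ {b i} := by
  unfold W
  rw [← Submodule.span_union]
  congr 1
  ext x
  simp only [Set.mem_image, Set.mem_Iio, Set.union_singleton, Set.mem_insert_iff]
  constructor
  · rintro ⟨j, hj, rfl⟩
    by_cases h : j = i
    · left; rw [h]
    · right; exact ⟨j, by omega, rfl⟩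
  · rintro (rfl | ⟨j, hj, rfl⟩)
    · exact ⟨i, by omega, rfl⟩
    · exact ⟨j, by omega, rfl⟩

theorem W_mono {j : ℕ} (h : i ≤ j) : W b i ≤ W b j :=
  Submodule.span_mono (Set.image_mono (Set.Iio_subset_Iio h))

theorem mem_W {j : ℕ} (h : j < i) : b j ∈ W b i :=
  Submodule.subset_span ⟨j, h, rfl⟩

theorem g_mem : g b i ∈ W b (i + 1) := by
  have h1 : b i - g b i ∈ W b i := sub_P_mem _
  have h2 := (W b (i + 1)).sub_mem (mem_W (b := b) (Nat.lt_succ_self i)) (W_mono (Nat.le_succ i) h1)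
  simpa using h2

theorem inner_P_g (x : E) : ⟪P b i x, g b i⟫_ℝ = ⟪x, g b i⟫_ℝ := by
  rw [inner_P_comm, g, P_unique (x := P b i (b i)) (v := P b i (b i))]
  · intro y hy; exact inner_P_mem hy _
  · simp

theorem inner_g_b : ⟪g b i, b i⟫_ℝ = ‖g b i‖ ^ 2 := by
  rw [← real_inner_self_eq_norm_sq, g, inner_P_P]

theorem P_succ (x : E) :
    P b (i + 1) x = P b i x - (⟪g b i, x⟫_ℝ / ‖g b i‖ ^ 2) • g b i := by
  apply P_unique
  · intro y hy
    rw [W_succ, Submodule.mem_sup] at hy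
    obtain ⟨y, hy, z, hz, rfl⟩ := hy
    obtain ⟨c, rfl⟩ := Submodule.mem_span_singleton.1 hz
    rw [inner_add_right, inner_sub_left, inner_sub_left, inner_P_mem hy, inner_smul_left,
      g, inner_P_mem hy, inner_smul_right, inner_smul_left, inner_smul_right]
    simp only [conj_trivial, mul_zero, sub_zero, zero_add]
    change c * ⟪P b i x, b i⟫_ℝ - (⟪g b i, x⟫_ℝ / ‖g b i‖ ^ 2) * (c * ⟪g b i, b i⟫_ℝ) = 0
    have e1 : ⟪P b i x, b i⟫_ℝ = ⟪g b i, x⟫_ℝ := by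
      rw [inner_P_comm, real_inner_comm]; rfl
    rw [inner_g_b, e1]
    by_cases h : ‖g b i‖ ^ 2 = 0
    · have : g b i = 0 := by simpa using h
      simp [this]
    · rw [div_mul_eq_mul_div, ← mul_assoc, mul_div_assoc, sub_eq_zero, div_self h, mul_one]
      ring
  · have h1 : x - P b i x ∈ W b (i + 1) := W_mono (Nat.le_succ i) (sub_P_mem x)
    have h2 := (W b (i + 1)).add_mem h1
      ((W b (i + 1)).smul_mem (⟪g b i, x⟫_ℝ / ‖g b i‖ ^ 2) g_mem)
    convert h2 using 1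
    abel

theorem norm_sq_P_succ (x : E) :
    ‖P b i x‖ ^ 2 = ‖P b (i + 1) x‖ ^ 2 + ⟪g b i, x⟫_ℝ ^ 2 / ‖g b i‖ ^ 2 := by
  rw [P_succ, ← real_inner_self_eq_norm_sq (P b i x - _), inner_sub_left, inner_sub_right,
    inner_sub_right, inner_smul_left, inner_smul_right, inner_smul_left, inner_smul_right,
    real_inner_self_eq_norm_sq, real_inner_self_eq_norm_sq]
  simp only [conj_trivial]
  have e1 : ⟪P b i x, g b i⟫_ℝ = ⟪g b i, x⟫_ℝ := by rw [inner_P_g, real_inner_comm]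
  have e2 : ⟪g b i, P b i x⟫_ℝ = ⟪g b i, x⟫_ℝ := by rw [real_inner_comm, e1]
  rw [e1, e2]
  by_cases h : ‖g b i‖ ^ 2 = 0
  · have : g b i = 0 := by simpa using h
    simp [this]
  · field_simp
    ring

theorem norm_sq_P_succ_le (x : E) : ‖P b (i + 1) x‖ ^ 2 ≤ ‖P b i x‖ ^ 2 := by
  have h := norm_sq_P_succ (b := b) (i := i) x
  have : 0 ≤ ⟪g b i, x⟫_ℝ ^ 2 / ‖g b i‖ ^ 2 := by positivity
  linarith

/-- Dependence on the span only. -/
theorem P_congr {b' : ℕ → E} {i' : ℕ} (h : W b' i' = W b i) (x : E) : P b' i' x = P b i x := by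
  apply P_unique
  · intro y hy
    rw [h] at hy
    exact inner_P_mem hy x
  · rw [h]; exact sub_P_mem x

/-! ### Gram determinants -/

/-- The Gram matrix of the first `i` vectors. -/
noncomputable def gm (b : ℕ → E) (i : ℕ) : Matrix (Fin i) (Fin i) ℝ :=
  Matrix.of fun p q : Fin i => ⟪b p, b q⟫_ℝ

theorem gd_eq : gd b i = (gm b i).det := rfl

theorem gd_zero : gd b 0 = 1 := by simp [gd]

theorem inner_zero_of_W {v : E} (h : ∀ p : ℕ, p < i → ⟪v, b p⟫_ℝ = 0) :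
    ∀ y ∈ W b i, ⟪v, y⟫_ℝ = 0 := by
  intro y hy
  refine Submodule.span_induction (p := fun y _ => ⟪v, y⟫_ℝ = 0) ?_ ?_ ?_ ?_ hy
  · rintro _ ⟨p, hp, rfl⟩
    exact h p hp
  · simp
  · intro x y _ _ hx hy
    rw [inner_add_right, hx, hy, add_zero]
  · intro c x _ hx
    rw [inner_smul_right, hx, mul_zero]

theorem sum_mem_W (y : Fin i → ℝ) : ∑ p, y p • b p ∈ W b i :=
  Submodule.sum_mem _ fun p _ => Submodule.smul_mem _ _ (mem_W p.2)

/-- Cramer's rule for the projection. -/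
theorem gd_smul_P (x : E) :
    gd b i • P b i x = gd b i • x -
      ∑ p, ((gm b i).adjugate.mulVec fun p => ⟪b p, x⟫_ℝ) p • b p := by
  rw [← P_smul]
  apply P_unique
  · apply inner_zero_of_W
    intro q hq
    rw [inner_sub_left, inner_smul_left, sum_inner]
    simp only [inner_smul_left, conj_trivial]
    have h1 : (gm b i).mulVec ((gm b i).adjugate.mulVec fun p => ⟪b p, x⟫_ℝ) =
        gd b i • fun p : Fin i => ⟪b p, x⟫_ℝ := by
      rw [Matrix.mulVec_mulVec, Matrix.mul_adjugate, Matrix.smul_mulVec, Matrix.one_mulVec]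
      rfl
    have h2 := congrFun h1 ⟨q, hq⟩
    simp only [Matrix.mulVec, dotProduct, gm, Matrix.of_apply, Pi.smul_apply, smul_eq_mul] at h2 ⊢
    rw [real_inner_comm, ← h2, sub_eq_zero]
    refine Finset.sum_congr rfl fun p _ => ?_
    rw [real_inner_comm, mul_comm]
  · simp only [sub_sub_cancel]
    exact sum_mem_W _

theorem gd_succ (h : gd b i ≠ 0) : gd b (i + 1) = gd b i * ‖g b i‖ ^ 2 := by
  set A := gm b i with hA
  have hAdet : IsUnit A.det := isUnit_iff_ne_zero.2 h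
  let _ : Invertible A := Matrix.invertibleOfIsUnitDet A hAdet
  set B : Matrix (Fin i) (Fin 1) ℝ := Matrix.of fun p _ => ⟪b p, b i⟫_ℝ
  set C : Matrix (Fin 1) (Fin i) ℝ := Matrix.of fun _ p => ⟪b i, b p⟫_ℝ
  set D : Matrix (Fin 1) (Fin 1) ℝ := Matrix.of fun _ _ => ⟪b i, b i⟫_ℝ
  have h1 : (gm b (i + 1)).submatrix finSumFinEquiv finSumFinEquiv = Matrix.fromBlocks A B C D := by
    ext p q
    rcases p with p | p <;> rcases q with q | q <;>
      simp [gm, A, B, C, D, finSumFinEquiv_apply_left, finSumFinEquiv_apply_right]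
  have h2 : gd b (i + 1) = (Matrix.fromBlocks A B C D).det := by
    rw [← h1, Matrix.det_submatrix_equiv_self]; rfl
  rw [h2, Matrix.det_fromBlocks₁₁]
  have h3 := congrArg (fun v => ⟪v, b i⟫_ℝ) (gd_smul_P (b := b) (i := i) (b i))
  simp only [inner_sub_left, inner_smul_left, sum_inner, conj_trivial] at h3
  change A.det * _ = A.det * _
  rw [Matrix.det_fin_one]
  have h4 : A.det * ‖g b i‖ ^ 2 = A.det * ⟪b i, b i⟫_ℝ -
      ∑ x : Fin i, (A.adjugate.mulVec fun p => ⟪b ↑p, b i⟫_ℝ) x * ⟪b x, b i⟫_ℝ := by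
    rw [← inner_g_b]; exact h3
  rw [h4]
  simp only [Matrix.sub_apply, mul_sub]
  congr 1
  have h5 : ⅟A = A⁻¹ := Matrix.invOf_eq_nonsing_inv A
  rw [h5, Matrix.inv_def, Matrix.mul_assoc]
  simp only [Matrix.smul_mul, Matrix.mul_smul, Matrix.smul_apply, smul_eq_mul]
  rw [← mul_assoc, Ring.mul_inverse_cancel _ hAdet, one_mul, Matrix.mul_apply]
  refine Finset.sum_congr rfl fun p _ => ?_
  rw [mul_comm, Matrix.mul_apply, real_inner_comm]
  congr 1

/-- Integral vectors. -/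
def IsInt {N : ℕ} (x : EuclideanSpace ℝ (Fin N)) : Prop := ∀ j, ∃ z : ℤ, x j = z

section Int

variable {N : ℕ} {x y : EuclideanSpace ℝ (Fin N)}

theorem IsInt.add (hx : IsInt x) (hy : IsInt y) : IsInt (x + y) := fun j => by
  obtain ⟨z, hz⟩ := hx j
  obtain ⟨w, hw⟩ := hy j
  exact ⟨z + w, by simp [hz, hw]⟩

theorem IsInt.sub (hx : IsInt x) (hy : IsInt y) : IsInt (x - y) := fun j => by
  obtain ⟨z, hz⟩ := hx j
  obtain ⟨w, hw⟩ := hy j
  exact ⟨z - w, by simp [hz, hw]⟩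

theorem IsInt.smul {c : ℝ} (hc : ∃ z : ℤ, c = z) (hx : IsInt x) : IsInt (c • x) := fun j => by
  obtain ⟨z, hz⟩ := hx j
  obtain ⟨w, hw⟩ := hc
  exact ⟨w * z, by simp [hz, hw]⟩

theorem IsInt.sum {ι : Type*} (s : Finset ι) (f : ι → EuclideanSpace ℝ (Fin N))
    (h : ∀ i ∈ s, IsInt (f i)) : IsInt (∑ i ∈ s, f i) := by
  classical
  induction s using Finset.induction_on with
  | empty => intro j; exact ⟨0, by simp⟩
  | insert a s ha ih =>
    rw [Finset.sum_insert ha]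
    exact (h a (by simp)).add (ih fun i hi => h i (by simp [hi]))

theorem IsInt.inner (hx : IsInt x) (hy : IsInt y) : ∃ z : ℤ, ⟪x, y⟫_ℝ = z := by
  choose f hf using hx
  choose k hk using hy
  refine ⟨∑ j, k j * f j, ?_⟩
  simp [PiLp.inner_apply, hf, hk]

theorem isInt_gm {b : ℕ → EuclideanSpace ℝ (Fin N)} {i : ℕ} (hb : ∀ p < i, IsInt (b p)) :
    ∃ A : Matrix (Fin i) (Fin i) ℤ, gm b i = A.map (Int.castRingHom ℝ) := by
  have : ∀ p q : Fin i, ∃ z : ℤ, ⟪b p, b q⟫_ℝ = z := fun p q => (hb p p.2).inner (hb q q.2)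
  choose A hA using this
  exact ⟨Matrix.of A, by ext p q; simp [gm, hA]⟩

theorem gd_int {b : ℕ → EuclideanSpace ℝ (Fin N)} {i : ℕ} (hb : ∀ p < i, IsInt (b p)) :
    ∃ z : ℤ, gd b i = z := by
  obtain ⟨A, hA⟩ := isInt_gm hb
  refine ⟨A.det, ?_⟩
  rw [gd_eq, hA]
  exact ((Int.castRingHom ℝ).map_det A).symm

theorem isInt_gd_smul_P {b : ℕ → EuclideanSpace ℝ (Fin N)} {i : ℕ} (hb : ∀ p < i, IsInt (b p))
    (hx : IsInt x) : IsInt (gd b i • P b i x) := by
  obtain ⟨A, hA⟩ := isInt_gm hb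
  rw [gd_smul_P]
  refine (hx.smul (gd_int hb)).sub (IsInt.sum _ _ fun p _ => IsInt.smul ?_ (hb p p.2))
  have : ∀ q : Fin i, ∃ z : ℤ, ⟪b q, x⟫_ℝ = z := fun q => (hb q q.2).inner hx
  choose r hr using this
  refine ⟨(A.adjugate.mulVec r) p, ?_⟩
  have h1 : (gm b i).adjugate = A.adjugate.map (Int.castRingHom ℝ) := by
    rw [hA]
    exact ((Int.castRingHom ℝ).map_adjugate A).symm
  rw [h1]
  simp [Matrix.mulVec, dotProduct, hr]

end Int

/-! ### Decomposition of the norm -/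

theorem norm_sq_eq_sum (b : ℕ → E) (i : ℕ) (x : E) :
    ‖x‖ ^ 2 = ‖P b i x‖ ^ 2 + ∑ j ∈ Finset.range i, ⟪g b j, x⟫_ℝ ^ 2 / ‖g b j‖ ^ 2 := by
  induction i with
  | zero => simp [P_zero]
  | succ i ih =>
    rw [ih, norm_sq_P_succ, Finset.sum_range_succ]
    ring

/-- Positivity of all Gram determinants. -/
def Pos (b : ℕ → E) (k : ℕ) : Prop := ∀ j ≤ k, 0 < gd b j

theorem Pos.g_pos {k : ℕ} (h : Pos b k) {j : ℕ} (hj : j < k) : 0 < ‖g b j‖ ^ 2 := by
  have h1 := h j (by omega)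
  have h2 := h (j + 1) (by omega)
  rw [gd_succ h1.ne'] at h2
  exact (mul_pos_iff_of_pos_left h1).1 h2

theorem Pos.g_sq {k : ℕ} (h : Pos b k) {j : ℕ} (hj : j < k) :
    ‖g b j‖ ^ 2 = gd b (j + 1) / gd b j := by
  have h1 := h j (by omega)
  rw [gd_succ h1.ne', mul_div_cancel_left₀ _ h1.ne']

theorem Pos.mono {k l : ℕ} (h : Pos b k) (hl : l ≤ k) : Pos b l := fun j hj => h j (by omega)

/-! ### Size reduction -/

theorem W_eq_of_sub_mem {b b' : ℕ → E} {k : ℕ} (h : ∀ j < k, b' j - b j ∈ W b j) :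
    ∀ j ≤ k, W b' j = W b j := by
  intro j
  induction j with
  | zero => intro _; simp [W]
  | succ j ih =>
    intro hj
    rw [W_succ, W_succ, ih (by omega)]
    have h1 := h j (by omega)
    apply le_antisymm
    · apply sup_le le_sup_left
      rw [Submodule.span_singleton_le_iff_mem, Submodule.mem_sup]
      exact ⟨_, h1, _, Submodule.mem_span_singleton_self _, by abel⟩
    · apply sup_le le_sup_left
      rw [Submodule.span_singleton_le_iff_mem, Submodule.mem_sup]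
      exact ⟨-(b' j - b j), Submodule.neg_mem _ h1, _, Submodule.mem_span_singleton_self _, by abel⟩

theorem g_eq_of_sub_mem {b b' : ℕ → E} {k : ℕ} (h : ∀ j < k, b' j - b j ∈ W b j) :
    ∀ j < k, g b' j = g b j := by
  intro j hj
  rw [g, P_congr (W_eq_of_sub_mem h j hj.le)]
  have h1 : b' j = b j + (b' j - b j) := by abel
  rw [h1, P_add, P_of_mem (h j hj), add_zero]
  rfl

theorem gd_eq_of_sub_mem {b b' : ℕ → E} {k : ℕ} (h : ∀ j < k, b' j - b j ∈ W b j)
    (hp : Pos b k) : ∀ j ≤ k, gd b' j = gd b j := by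
  intro j
  induction j with
  | zero => intro _; rw [gd_zero, gd_zero]
  | succ j ih =>
    intro hj
    have h1 := ih (by omega)
    have h2 := hp j (by omega)
    rw [gd_succ (by rw [h1]; exact h2.ne'), gd_succ h2.ne', h1, g_eq_of_sub_mem h j (by omega)]

/-! ### Swapping two neighbours -/

/-- The sequence with two neighbours exchanged. -/
def sw (b : ℕ → E) (i : ℕ) : ℕ → E := fun j => b (Equiv.swap i (i + 1) j)

theorem sw_self (b : ℕ → E) (i : ℕ) : sw b i i = b (i + 1) := by simp [sw]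
theorem sw_succ (b : ℕ → E) (i : ℕ) : sw b i (i + 1) = b i := by simp [sw]
theorem sw_of_ne (b : ℕ → E) (i : ℕ) {j : ℕ} (h1 : j ≠ i) (h2 : j ≠ i + 1) : sw b i j = b j := by
  simp [sw, Equiv.swap_apply_of_ne_of_ne h1 h2]

theorem W_sw_of_le {j : ℕ} (h : j ≤ i) : W (sw b i) j = W b j := by
  unfold W
  congr 1
  ext x
  simp only [Set.mem_image, Set.mem_Iio]
  constructor
  · rintro ⟨p, hp, rfl⟩
    exact ⟨p, hp, by rw [sw_of_ne] <;> omega⟩
  · rintro ⟨p, hp, rfl⟩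
    exact ⟨p, hp, by rw [sw_of_ne] <;> omega⟩

theorem swap_lt {j p : ℕ} (h : i + 2 ≤ j) (hp : p < j) : Equiv.swap i (i + 1) p < j := by
  rcases eq_or_ne p i with rfl | h1
  · simp; omega
  · rcases eq_or_ne p (i + 1) with rfl | h2
    · simp; omega
    · rw [Equiv.swap_apply_of_ne_of_ne h1 h2]; exact hp

theorem W_sw_of_ge {j : ℕ} (h : i + 2 ≤ j) : W (sw b i) j = W b j := by
  unfold W
  congr 1
  ext x
  simp only [Set.mem_image, Set.mem_Iio]
  constructor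
  · rintro ⟨p, hp, rfl⟩
    exact ⟨_, swap_lt h hp, rfl⟩
  · rintro ⟨p, hp, rfl⟩
    refine ⟨_, swap_lt h hp, ?_⟩
    simp [sw]

theorem gd_sw_of_le {j : ℕ} (h : j ≤ i) : gd (sw b i) j = gd b j := by
  unfold gd
  congr 1
  ext p q
  have hp := p.2
  have hq := q.2
  simp only [Matrix.of_apply]
  rw [sw_of_ne _ _ (by omega) (by omega), sw_of_ne _ _ (by omega) (by omega)]

theorem gd_sw_of_ge {j : ℕ} (h : i + 2 ≤ j) : gd (sw b i) j = gd b j := by
  let e : Fin j ≃ Fin j :=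
    ⟨fun p => ⟨Equiv.swap i (i + 1) p, swap_lt h p.2⟩,
     fun p => ⟨Equiv.swap i (i + 1) p, swap_lt h p.2⟩,
     fun p => by ext; simp, fun p => by ext; simp⟩
  have h1 : (Matrix.of fun p q : Fin j => ⟪sw b i p, sw b i q⟫_ℝ) =
      (Matrix.of fun p q : Fin j => ⟪b p, b q⟫_ℝ).submatrix e e := by
    ext p q
    simp [sw, e]
  unfold gd
  rw [h1, Matrix.det_submatrix_equiv_self]

theorem g_sw_of_lt {j : ℕ} (h : j < i) : g (sw b i) j = g b j := by
  rw [g, P_congr (W_sw_of_le (by omega)), sw_of_ne _ _ (by omega) (by omega)]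
  rfl

theorem g_sw_of_gt {j : ℕ} (h : i + 2 ≤ j) : g (sw b i) j = g b j := by
  rw [g, P_congr (W_sw_of_ge (by omega)), sw_of_ne _ _ (by omega) (by omega)]
  rfl

theorem g_sw_self : ‖g (sw b i) i‖ ^ 2 =
    ‖g b (i + 1)‖ ^ 2 + ⟪g b i, b (i + 1)⟫_ℝ ^ 2 / ‖g b i‖ ^ 2 := by
  rw [g, P_congr (W_sw_of_le le_rfl), sw_self, norm_sq_P_succ]
  rfl

theorem g_sw_succ_le : ‖g (sw b i) (i + 1)‖ ^ 2 ≤ ‖g b i‖ ^ 2 := by
  rw [g]
  refine (norm_sq_P_succ_le _).trans ?_
  rw [P_congr (W_sw_of_le le_rfl), sw_succ]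
  rfl

/-- The effect of a swap step. -/
theorem swap_step {k : ℕ} (hp : Pos b k) (hi : i + 1 < k)
    (hμ : |⟪g b i, b (i + 1)⟫_ℝ| ≤ ‖g b i‖ ^ 2 / 2)
    (hlov : 2 * ‖g b (i + 1)‖ ^ 2 < ‖g b i‖ ^ 2) :
    ‖g (sw b i) i‖ ^ 2 < 3 / 4 * ‖g b i‖ ^ 2 := by
  have h1 := hp.g_pos (j := i) (by omega)
  rw [g_sw_self]
  have h2 : ⟪g b i, b (i + 1)⟫_ℝ ^ 2 / ‖g b i‖ ^ 2 ≤ ‖g b i‖ ^ 2 / 4 := by
    rw [div_le_iff₀ h1, ← sq_abs]
    nlinarith [abs_nonneg (⟪g b i, b (i + 1)⟫_ℝ)]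
  linarith

theorem swap_pos {k : ℕ} (hp : Pos b k) (hi : i + 1 < k) : Pos (sw b i) k := by
  intro j hj
  rcases lt_trichotomy j (i + 1) with h | h | h
  · rw [gd_sw_of_le (by omega)]; exact hp j hj
  · subst h
    have h0 : gd (sw b i) i = gd b i := gd_sw_of_le le_rfl
    have h1 := hp i (by omega)
    rw [gd_succ (by rw [h0]; exact h1.ne'), h0, g_sw_self]
    have h2 := hp.g_pos (j := i + 1) (by omega)
    have h3 : 0 ≤ ⟪g b i, b (i + 1)⟫_ℝ ^ 2 / ‖g b i‖ ^ 2 := by positivity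
    exact mul_pos h1 (by linarith)
  · rw [gd_sw_of_ge (by omega)]; exact hp j hj

/-- The potential. -/
noncomputable def pot (b : ℕ → E) (k : ℕ) : ℝ := ∏ j ∈ Finset.range (k + 1), gd b j

theorem swap_pot {k : ℕ} (hp : Pos b k) (hi : i + 1 < k)
    (hμ : |⟪g b i, b (i + 1)⟫_ℝ| ≤ ‖g b i‖ ^ 2 / 2)
    (hlov : 2 * ‖g b (i + 1)‖ ^ 2 < ‖g b i‖ ^ 2) :
    pot (sw b i) k ≤ 3 / 4 * pot b k := by
  have h1 := swap_step hp hi hμ hlov
  unfold pot
  have hmem : i + 1 ∈ Finset.range (k + 1) := by simp; omega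
  rw [← Finset.mul_prod_erase _ _ hmem, ← Finset.mul_prod_erase _ _ hmem]
  have h2 : ∏ x ∈ (Finset.range (k + 1)).erase (i + 1), gd (sw b i) x =
      ∏ x ∈ (Finset.range (k + 1)).erase (i + 1), gd b x := by
    refine Finset.prod_congr rfl fun j hj => ?_
    have hj' : j ≠ i + 1 := (Finset.mem_erase.1 hj).1
    rcases lt_or_gt_of_ne hj' with h | h
    · exact gd_sw_of_le (by omega)
    · exact gd_sw_of_ge (by omega)
  rw [h2, ← mul_assoc]
  refine mul_le_mul_of_nonneg_right ?_ (Finset.prod_nonneg fun j hj => ?_)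
  · have h0 : gd (sw b i) i = gd b i := gd_sw_of_le le_rfl
    have h3 := hp i (by omega)
    rw [gd_succ (by rw [h0]; exact h3.ne'), gd_succ h3.ne', h0]
    nlinarith
  · have : j ≤ k := by
      have := Finset.mem_range.1 (Finset.mem_of_mem_erase hj)
      omega
    exact (hp j this).le

theorem pot_eq_of_sub_mem {b b' : ℕ → E} {k : ℕ} (h : ∀ j < k, b' j - b j ∈ W b j)
    (hp : Pos b k) : pot b' k = pot b k :=
  Finset.prod_congr rfl fun j hj => gd_eq_of_sub_mem h hp j (by simp at hj; omega)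

theorem pot_le {k : ℕ} (hp : Pos b k) {A : ℝ} (hA : 1 ≤ A) (h : ∀ j < k, ‖g b j‖ ^ 2 ≤ A) :
    pot b k ≤ A ^ (k * (k + 1)) := by
  have h1 : ∀ j ≤ k, gd b j ≤ A ^ j := by
    intro j
    induction j with
    | zero => intro _; simp [gd_zero]
    | succ j ih =>
      intro hj
      have h2 := hp j (by omega)
      rw [gd_succ h2.ne', pow_succ]
      have h0 : (0 : ℝ) ≤ A ^ j := pow_nonneg (by linarith) j
      exact mul_le_mul (ih (by omega)) (h j (by omega)) (by positivity) h0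
  unfold pot
  calc ∏ j ∈ Finset.range (k + 1), gd b j ≤ ∏ j ∈ Finset.range (k + 1), A ^ k := by
        refine Finset.prod_le_prod (fun j hj => (hp j (by simp at hj; omega)).le) fun j hj => ?_
        have hj' : j ≤ k := by simp at hj; omega
        exact (h1 j hj').trans (pow_le_pow_right₀ hA hj')
    _ = A ^ (k * (k + 1)) := by rw [Finset.prod_const, Finset.card_range, ← pow_mul]

/-! ### Reduced bases -/

theorem norm_sq_le_of_reduced {j : ℕ} (hμ : ∀ l < j, |⟪g b l, b j⟫_ℝ| ≤ ‖g b l‖ ^ 2 / 2) {A : ℝ}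
    (h : ∀ l ≤ j, ‖g b l‖ ^ 2 ≤ A) : ‖b j‖ ^ 2 ≤ (j + 1) * A := by
  rw [norm_sq_eq_sum b j]
  have h1 : ∑ l ∈ Finset.range j, ⟪g b l, b j⟫_ℝ ^ 2 / ‖g b l‖ ^ 2 ≤ ∑ l ∈ Finset.range j, A := by
    refine Finset.sum_le_sum fun l hl => ?_
    have hl' := Finset.mem_range.1 hl
    have h2 := hμ l hl'
    have h3 := h l hl'.le
    have h4 : 0 ≤ ‖g b l‖ ^ 2 := by positivity
    rcases h4.eq_or_lt with h5 | h5
    · rw [← h5]; simp; linarith
    · rw [div_le_iff₀ h5, ← sq_abs]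
      nlinarith [abs_nonneg (⟪g b l, b j⟫_ℝ)]
  rw [Finset.sum_const, Finset.card_range, nsmul_eq_mul] at h1
  have h2 := h j le_rfl
  have h3 : ‖P b j (b j)‖ ^ 2 = ‖g b j‖ ^ 2 := rfl
  rw [h3]
  linarith

theorem g_chain {k : ℕ} (hlov : ∀ i, i + 1 < k → ‖g b i‖ ^ 2 ≤ 2 * ‖g b (i + 1)‖ ^ 2) {r : ℕ}
    (hr : r < k) : ∀ d i, i + d = r → ‖g b i‖ ^ 2 ≤ 2 ^ d * ‖g b r‖ ^ 2 := by
  intro d
  induction d with
  | zero => intro i hi; simp at hi; subst hi; simp
  | succ d ih =>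
    intro i hi
    have h1 := ih (i + 1) (by omega)
    have h2 := hlov i (by omega)
    calc ‖g b i‖ ^ 2 ≤ 2 * ‖g b (i + 1)‖ ^ 2 := h2
      _ ≤ 2 * (2 ^ d * ‖g b r‖ ^ 2) := by linarith
      _ = 2 ^ (d + 1) * ‖g b r‖ ^ 2 := by ring

/-- The first vectors of a reduced basis are short. -/
theorem short_of_reduced {k : ℕ} (hlov : ∀ i, i + 1 < k → ‖g b i‖ ^ 2 ≤ 2 * ‖g b (i + 1)‖ ^ 2)
    (hμ : ∀ j < k, ∀ l < j, |⟪g b l, b j⟫_ℝ| ≤ ‖g b l‖ ^ 2 / 2) {r j : ℕ} (hr : r < k)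
    (hj : j ≤ r) {β : ℝ} (hβ : ‖g b r‖ ^ 2 ≤ β) : ‖b j‖ ^ 2 ≤ 4 ^ k * β := by
  have hβ0 : 0 ≤ β := le_trans (by positivity) hβ
  have h1 : ∀ l ≤ j, ‖g b l‖ ^ 2 ≤ 2 ^ k * β := by
    intro l hl
    have h2 := g_chain hlov hr (r - l) l (by omega)
    refine h2.trans ?_
    have h3 : (2 : ℝ) ^ (r - l) ≤ 2 ^ k := pow_le_pow_right₀ (by norm_num) (by omega)
    exact mul_le_mul h3 hβ (by positivity) (by positivity)
  have h2 := norm_sq_le_of_reduced (hμ j (by omega)) h1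
  have h3 : ((j : ℝ) + 1) ≤ 2 ^ k := by
    have : j + 1 ≤ 2 ^ k := by
      have := (Nat.lt_two_pow_self (n := k))
      omega
    exact_mod_cast this
  calc ‖b j‖ ^ 2 ≤ (j + 1) * (2 ^ k * β) := h2
    _ ≤ 2 ^ k * (2 ^ k * β) := by
        apply mul_le_mul_of_nonneg_right h3; positivity
    _ = 4 ^ k * β := by
        rw [← mul_assoc, ← mul_pow]; norm_num

/-- A short lattice vector only involves the basis vectors up to a short Gram-Schmidt vector. -/
theorem lattice_short {k : ℕ} (x : ℕ → ℤ) {β : ℝ}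
    (hβ : ‖∑ j ∈ Finset.range k, (x j : ℝ) • b j‖ ^ 2 ≤ β) {j : ℕ} (hj : j < k) (hxj : x j ≠ 0) :
    ∃ i < k, j ≤ i ∧ ‖g b i‖ ^ 2 ≤ β := by
  classical
  set s := (Finset.range k).filter fun l => x l ≠ 0
  have hne : s.Nonempty := ⟨j, by simp [s, hj, hxj]⟩
  set i := s.max' hne
  have hi : i ∈ s := s.max'_mem hne
  have hi' : i < k ∧ x i ≠ 0 := by simpa [s] using hi
  refine ⟨i, hi'.1, s.le_max' j (by simp [s, hj, hxj]), ?_⟩
  have h0 : ∀ l ∈ Finset.range k, l ∉ Finset.range (i + 1) → (x l : ℝ) • b l = 0 := by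
    intro l hl hl2
    have hl3 : i < l := by simpa using hl2
    by_cases h : x l = 0
    · simp [h]
    · have := s.le_max' l (by simp [s, h]; simpa using hl)
      omega
  have h1 : ∑ l ∈ Finset.range k, (x l : ℝ) • b l =
      ∑ l ∈ Finset.range (i + 1), (x l : ℝ) • b l := by
    symm
    apply Finset.sum_subset
    · intro l hl; simp at hl ⊢; omega
    · exact h0
  have h2 : P b i (∑ l ∈ Finset.range k, (x l : ℝ) • b l) = (x i : ℝ) • g b i := by
    rw [h1, Finset.sum_range_succ, P_add, P_smul, P_of_mem, zero_add]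
    · rfl
    · exact Submodule.sum_mem _ fun l hl => Submodule.smul_mem _ _ (mem_W (by simpa using hl))
  have h3 := norm_P_le (b := b) (i := i) (∑ l ∈ Finset.range k, (x l : ℝ) • b l)
  rw [h2, norm_smul] at h3
  have h4 : (1 : ℝ) ≤ ‖(x i : ℝ)‖ := by
    rw [Real.norm_eq_abs]
    exact_mod_cast Int.one_le_abs hi'.2
  have h5 : ‖g b i‖ ≤ ‖∑ l ∈ Finset.range k, (x l : ℝ) • b l‖ := by
    refine le_trans ?_ h3
    nlinarith [norm_nonneg (g b i)]
  calc ‖g b i‖ ^ 2 ≤ ‖∑ l ∈ Finset.range k, (x l : ℝ) • b l‖ ^ 2 :=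
        pow_le_pow_left₀ (norm_nonneg _) h5 2
    _ ≤ β := hβ

end Pool.Agent.H687R2.LLL
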