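import Pool.Agent.H687R2.LLLRun
import Pool.Agent.H687R2.PolyOn

/-!
# Lattice reduction is polynomial-time computable
-/

namespace Pool.Agent.H687R2.LLL

open Pool.Agent.NPC

/-- The `ℓ¹` norm. -/
def nrm (l : List ℤ) : ℕ := (l.map Int.natAbs).sum

@[simp] theorem nrm_nil : nrm [] = 0 := rfl

@[simp] theorem nrm_cons (x : ℤ) (l : List ℤ) : nrm (x :: l) = x.natAbs + nrm l := by simp [nrm]

theorem natAbs_lt_two_pow (x : ℤ) : x.natAbs < 2 ^ sz x := by
  have h1 := size_natAbs_le_sz x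
  exact lt_of_lt_of_le (Nat.lt_size_self x.natAbs) (Nat.pow_le_pow_right (by norm_num) (by omega))

theorem nat_lt_two_pow (x : ℕ) : x < 2 ^ sz x := by
  have h1 := size_le_sz x
  exact lt_of_lt_of_le (Nat.lt_size_self x) (Nat.pow_le_pow_right (by norm_num) (by omega))

theorem nrm_lt (l : List ℤ) : nrm l < 2 ^ sz l := by
  induction l with
  | nil => simp
  | cons x l ih =>
    rw [nrm_cons, sz_list_cons]
    have h3 := natAbs_lt_two_pow x
    have h5 : 2 ^ sz x ≤ 2 ^ (sz x + sz l) := Nat.pow_le_pow_right (by norm_num) (by omega)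
    have h6 : 2 ^ sz l ≤ 2 ^ (sz x + sz l) := Nat.pow_le_pow_right (by norm_num) (by omega)
    rw [pow_succ]
    omega

theorem natAbs_le_nrm {x : ℤ} {l : List ℤ} (h : x ∈ l) : x.natAbs ≤ nrm l := by
  induction l with
  | nil => simp at h
  | cons y l ih =>
    rw [nrm_cons]
    rcases List.mem_cons.1 h with h | h
    · subst h; omega
    · have := ih h; omega

theorem sz_of_lt {x : ℤ} {M : ℕ} (h : x.natAbs < 2 ^ M) : sz x ≤ 4 * M + 5 := by
  have h1 := sz_int_le x
  have h2 := Nat.size_le.2 h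
  omega

theorem sz_nat_of_lt {x M : ℕ} (h : x < 2 ^ M) : sz x ≤ 4 * M + 1 := by
  have h1 := sz_nat_le x
  have h2 := Nat.size_le.2 h
  omega

theorem sz_of_nrm {l : List ℤ} {M : ℕ} (h : nrm l < 2 ^ M) :
    sz l ≤ l.length * (4 * M + 6) + 1 :=
  sz_le_length_mul l (4 * M + 5) fun _ hx => sz_of_lt (lt_of_le_of_lt (natAbs_le_nrm hx) h)

theorem nrm_comb (c : ℤ) (u : List ℤ) (d : ℤ) (v : List ℤ) :
    nrm (comb c u d v) ≤ c.natAbs * nrm u + d.natAbs * nrm v := by
  induction u generalizing v with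
  | nil => simp [comb]
  | cons x u ih =>
    cases v with
    | nil => simp [comb]
    | cons y v =>
      have h1 := ih v
      have h2 : (c * x - d * y).natAbs ≤ c.natAbs * x.natAbs + d.natAbs * y.natAbs := by
        have := Int.natAbs_sub_le (c * x) (d * y)
        rwa [Int.natAbs_mul, Int.natAbs_mul] at this
      simp only [comb, List.zipWith_cons_cons, nrm_cons] at h1 ⊢
      nlinarith

theorem nrm_divV (u : List ℤ) (n : ℕ) : nrm (divV u n) ≤ nrm u := by
  induction u with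
  | nil => simp [divV]
  | cons x u ih =>
    have h1 : (x / (n : ℤ)).natAbs ≤ x.natAbs := Int.natAbs_ediv_le_natAbs x n
    simp only [divV, List.map_cons, nrm_cons] at ih ⊢
    omega

theorem natAbs_dot_le (u v : List ℤ) : (dot u v).natAbs ≤ nrm u * nrm v := by
  induction u generalizing v with
  | nil => simp [dot]
  | cons x u ih =>
    cases v with
    | nil => simp [dot]
    | cons y v =>
      have h1 := ih v
      have h2 : (x * y + dot u v).natAbs ≤ x.natAbs * y.natAbs + (dot u v).natAbs := by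
        have := Int.natAbs_add_le (x * y) (dot u v)
        rwa [Int.natAbs_mul] at this
      simp only [dot, List.zipWith_cons_cons, nrm_cons, List.sum_cons] at h1 h2 ⊢
      nlinarith [Nat.zero_le (x.natAbs * nrm v), Nat.zero_le (nrm u * y.natAbs)]

theorem natAbs_rnd_le (a : ℤ) (d : ℕ) : (rnd a d).natAbs ≤ a.natAbs + 2 := by
  unfold rnd
  rcases Nat.eq_zero_or_pos d with hd | hd
  · subst hd; simp
  · have h0 : (0 : ℤ) < ((2 * d : ℕ) : ℤ) := by positivity
    have h1 := Int.ediv_mul_le (2 * a + d) h0.ne'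
    have h2 := Int.lt_ediv_add_one_mul_self (2 * a + d) h0
    set r := (2 * a + d) / ((2 * d : ℕ) : ℤ)
    push_cast at h1 h2
    have hd' : (1 : ℤ) ≤ d := by exact_mod_cast hd
    have h3 : r ≤ |a| + 1 := by
      by_contra h
      push Not at h
      have h4 := le_abs_self a
      have h5 := abs_nonneg a
      nlinarith
    have h4 : -(|a| + 2) ≤ r := by
      by_contra h
      push Not at h
      have h4 := neg_abs_le a
      have h5 := abs_nonneg a
      nlinarith
    have h5 := Int.abs_eq_natAbs a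
    omega

theorem length_comb_le (c : ℤ) (u : List ℤ) (d : ℤ) (v : List ℤ) :
    (comb c u d v).length ≤ u.length := by
  simp [comb]

theorem nrm_gsStep {bi : List ℤ} {s : List ℤ × ℕ} {t : List ℤ × List ℤ × ℕ} {M : ℕ}
    (h : nrm s.1 < 2 ^ M) : nrm (gsStep bi s t).1 < 2 ^ (M + 2 * sz t + sz bi) := by
  obtain ⟨b, v, d⟩ := t
  simp only [gsStep]
  refine lt_of_le_of_lt (nrm_divV _ _) (lt_of_le_of_lt (nrm_comb _ _ _ _) ?_)
  have h1 := natAbs_dot_le bi v
  have h2 := nrm_lt v
  have h3 := nrm_lt bi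
  have h4 := nat_lt_two_pow d
  rw [Int.natAbs_natCast]
  simp only [sz_pair]
  have h5 : d * nrm s.1 < 2 ^ (sz d + M) := by rw [pow_add]; exact Nat.mul_lt_mul'' h4 h
  have h6 : (dot bi v).natAbs * nrm v ≤ 2 ^ (sz bi + sz v + sz v) := by
    rw [pow_add, pow_add]
    exact Nat.mul_le_mul (h1.trans (Nat.mul_le_mul h3.le h2.le)) h2.le
  have h7 : 2 ^ (sz d + M) ≤ 2 ^ (M + 2 * (sz b + (sz v + sz d + 1)) + 1 + sz bi) :=
    Nat.pow_le_pow_right (by norm_num) (by omega)
  have h8 : 2 ^ (sz bi + sz v + sz v) ≤ 2 ^ (M + 2 * (sz b + (sz v + sz d + 1)) + 1 + sz bi) :=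
    Nat.pow_le_pow_right (by norm_num) (by omega)
  have h9 : 2 ^ (M + 2 * (sz b + (sz v + sz d + 1) + 1) + sz bi) =
      2 ^ (M + 2 * (sz b + (sz v + sz d + 1)) + 1 + sz bi) * 2 := by
    rw [← pow_succ]; congr 1; ring
  rw [h9]
  omega

theorem nrm_redStep {s : List ℤ} {t : List ℤ × List ℤ × ℕ} {M : ℕ}
    (h : nrm s < 2 ^ M) : nrm (redStep s t) < 2 ^ (M + 2 * sz t) := by
  obtain ⟨b, v, d⟩ := t
  simp only [redStep]
  refine lt_of_le_of_lt (nrm_comb _ _ _ _) ?_
  have h1 := natAbs_dot_le s v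
  have h2 := nrm_lt v
  have h3 := nrm_lt b
  have h4 := natAbs_rnd_le (dot s v) d
  simp only [sz_pair, Int.natAbs_one, one_mul]
  have h5 : (rnd (dot s v) d).natAbs ≤ 2 ^ (M + sz v + 2) := by
    have : nrm s * nrm v ≤ 2 ^ M * 2 ^ sz v := Nat.mul_le_mul h.le h2.le
    have h6 : 1 ≤ 2 ^ (M + sz v) := Nat.one_le_two_pow
    rw [pow_add, pow_add] at *
    omega
  have h6 : (rnd (dot s v) d).natAbs * nrm b ≤ 2 ^ (M + sz v + 2 + sz b) := by
    rw [pow_add _ _ (sz b)]
    exact Nat.mul_le_mul h5 h3.le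
  have h7 : 2 ^ (M + sz v + 2 + sz b) ≤ 2 ^ (M + 2 * (sz b + (sz v + sz d + 1)) + 1) :=
    Nat.pow_le_pow_right (by norm_num) (by omega)
  have h8 : 2 ^ M ≤ 2 ^ (M + 2 * (sz b + (sz v + sz d + 1)) + 1) :=
    Nat.pow_le_pow_right (by norm_num) (by omega)
  have h9 : 2 ^ (M + 2 * (sz b + (sz v + sz d + 1) + 1)) =
      2 ^ (M + 2 * (sz b + (sz v + sz d + 1)) + 1) * 2 := by
    rw [← pow_succ]; congr 1
  rw [h9]
  omega

theorem gsFold_bound (bi : List ℤ) : ∀ (l : List (List ℤ × List ℤ × ℕ)) (s : List ℤ × ℕ) (M : ℕ),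
    nrm s.1 < 2 ^ M → nrm (l.foldl (gsStep bi) s).1 < 2 ^ (M + 2 * sz l + l.length * sz bi) ∧
      (l.foldl (gsStep bi) s).1.length ≤ s.1.length ∧
      sz (l.foldl (gsStep bi) s).2 ≤ sz s.2 + sz l := by
  intro l
  induction l with
  | nil =>
    intro s M h
    refine ⟨lt_of_lt_of_le h (Nat.pow_le_pow_right (by norm_num) (by omega)), le_rfl, by simp⟩
  | cons t l ih =>
    intro s M h
    rw [List.foldl_cons]
    obtain ⟨h1, h2, h3⟩ := ih _ _ (nrm_gsStep (bi := bi) (t := t) h)
    refine ⟨lt_of_lt_of_le h1 (Nat.pow_le_pow_right (by norm_num) ?_), h2.trans ?_, h3.trans ?_⟩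
    · simp only [sz_list_cons, List.length_cons]; nlinarith
    · simp only [gsStep, divV, List.length_map]; exact length_comb_le _ _ _ _
    · obtain ⟨b, v, d⟩ := t
      simp only [gsStep, sz_list_cons, sz_pair]
      omega

theorem redFold_bound : ∀ (l : List (List ℤ × List ℤ × ℕ)) (s : List ℤ) (M : ℕ),
    nrm s < 2 ^ M → nrm (l.foldr (fun t s => redStep s t) s) < 2 ^ (M + 2 * sz l) ∧
      (l.foldr (fun t s => redStep s t) s).length ≤ s.length := by
  intro l
  induction l with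
  | nil =>
    intro s M h
    refine ⟨lt_of_lt_of_le h (Nat.pow_le_pow_right (by norm_num) (by omega)), le_rfl⟩
  | cons t l ih =>
    intro s M h
    rw [List.foldr_cons]
    obtain ⟨h1, h2⟩ := ih s M h
    refine ⟨lt_of_lt_of_le (nrm_redStep (t := t) h1) (Nat.pow_le_pow_right (by norm_num) ?_),
      (length_comb_le _ _ _ _).trans h2⟩
    simp only [sz_list_cons]; omega

end Pool.Agent.H687R2.LLL

namespace Pool.Agent.NPC.Poly

open Pool.Agent.H687R2.LLL

variable {α β γ δ σ : Type} [TEnc α] [TEnc β] [TEnc γ] [TEnc δ] [TEnc σ]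

theorem vdot {u v : α → List ℤ} (hu : Poly u) (hv : Poly v) :
    Poly (fun a => H687R2.LLL.dot (u a) (v a)) := dot hu hv

theorem comb {c d : α → ℤ} {u v : α → List ℤ} (hc : Poly c) (hu : Poly u) (hd : Poly d)
    (hv : Poly v) : Poly (fun a => H687R2.LLL.comb (c a) (u a) (d a) (v a)) :=
  zipWith (F := fun a x y => c a * x - d a * y) hu hv
    (isub (imul (hc.comp (fst id)) (fst (snd id))) (imul (hd.comp (fst id)) (snd (snd id))))

theorem divV {u : α → List ℤ} {n : α → ℕ} (hu : Poly u) (hn : Poly n) :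
    Poly (fun a => H687R2.LLL.divV (u a) (n a)) :=
  map (F := fun a x => x / (n a : ℤ)) hu (idiv (snd id) (hn.comp (fst id)))

theorem rnd {a : α → ℤ} {d : α → ℕ} (ha : Poly a) (hd : Poly d) :
    Poly (fun x => H687R2.LLL.rnd (a x) (d x)) := by
  have h1 : Poly (fun x => 2 * a x + (d x : ℤ)) := iadd (imul (const 2) ha) (natCast hd)
  have h2 : Poly (fun x => 2 * d x) := mul (const 2) hd
  exact (idiv h1 h2).congr fun x => rfl

theorem gsStep : Poly (fun p : List ℤ × (List ℤ × ℕ) × (List ℤ × List ℤ × ℕ) =>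
    H687R2.LLL.gsStep p.1 p.2.1 p.2.2) :=
  pair (divV (comb (natCast (snd (snd (snd (snd id))))) (fst (fst (snd id)))
    (vdot (fst id) (fst (snd (snd (snd id))))) (fst (snd (snd (snd id))))) (snd (fst (snd id))))
    (snd (snd (snd (snd id))))

theorem redStep : Poly (fun p : List ℤ × (List ℤ × List ℤ × ℕ) => H687R2.LLL.redStep p.1 p.2) :=
  comb (const 1) (fst id) (rnd (vdot (fst id) (fst (snd (snd id)))) (snd (snd (snd id))))
    (fst (snd id))

theorem gsrStep : Poly (fun p : List (List ℤ × List ℤ × ℕ) × List ℤ =>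
    H687R2.LLL.gsrStep p.1 p.2) := by
  have h1 : Poly (fun p : List (List ℤ × List ℤ × ℕ) × List ℤ =>
      p.1.foldl (H687R2.LLL.gsStep p.2) (p.2, 1)) := by
    have hA : Poly (fun q : (List (List ℤ × List ℤ × ℕ) × List ℤ) × (List ℤ × ℕ) ×
        (List ℤ × List ℤ × ℕ) => (q.1.2, q.2.1, q.2.2)) :=
      pair (snd (fst id)) (pair (fst (snd id)) (snd (snd id)))
    have hF : Poly (fun q : (List (List ℤ × List ℤ × ℕ) × List ℤ) × (List ℤ × ℕ) ×
        (List ℤ × List ℤ × ℕ) => H687R2.LLL.gsStep q.1.2 q.2.1 q.2.2) := by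
      have := gsStep.comp hA
      exact this
    have hs : Poly (fun p : List (List ℤ × List ℤ × ℕ) × List ℤ => ((p.2, 1) : List ℤ × ℕ)) :=
      pair (snd id) (const 1)
    have hl : Poly (fun p : List (List ℤ × List ℤ × ℕ) × List ℤ => p.1) := fst id
    refine foldl (α := List (List ℤ × List ℤ × ℕ) × List ℤ) (β := List ℤ × List ℤ × ℕ)
      (σ := List ℤ × ℕ) (l := fun p => p.1) (s := fun p => (p.2, 1))
      (F := fun p s t => H687R2.LLL.gsStep p.2 s t) hl hs hF
      (Polynomial.X * (Polynomial.C 4 * (Polynomial.C 3 * Polynomial.X +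
        Polynomial.X * Polynomial.X) + Polynomial.C 6) + Polynomial.X + Polynomial.C 10) ?_
    rintro ⟨acc, bi⟩ k hk
    simp only
    obtain ⟨e1, e2, e3⟩ := gsFold_bound bi (acc.take k) (bi, 1) (sz bi) (nrm_lt bi)
    have e4 := sz_of_nrm e1
    have e5 := sz_take_le acc k
    have e6 : (acc.take k).length ≤ acc.length := by simp
    have e7 := length_lt_sz acc
    have e8 := length_lt_sz bi
    have e9 : sz (1 : ℕ) ≤ 5 := sz_nat_of_lt (M := 1) (by norm_num)
    set R := (acc.take k).foldl (H687R2.LLL.gsStep bi) (bi, 1)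
    rw [show sz R = sz R.1 + sz R.2 + 1 from sz_pair _ _]
    simp only [sz_pair, Polynomial.eval_add, Polynomial.eval_mul, Polynomial.eval_C,
      Polynomial.eval_X]
    simp only at e2 e3
    have e10 : (acc.take k).length * sz bi ≤ (sz acc + sz bi + 1) * (sz acc + sz bi + 1) :=
      Nat.mul_le_mul (by omega) (by omega)
    have e11 : R.1.length * (4 * (sz bi + 2 * sz (acc.take k) + (acc.take k).length * sz bi) + 6)
      ≤ (sz acc + sz bi + 1) * (4 * (3 * (sz acc + sz bi + 1) +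
        (sz acc + sz bi + 1) * (sz acc + sz bi + 1)) + 6) :=
      Nat.mul_le_mul (by omega) (by omega)
    omega
  have h2 : Poly (fun p : List (List ℤ × List ℤ × ℕ) × List ℤ =>
      p.1.foldr (fun t s => H687R2.LLL.redStep s t) p.2) := by
    have hA : Poly (fun q : (List (List ℤ × List ℤ × ℕ) × List ℤ) × (List ℤ × List ℤ × ℕ) ×
        List ℤ => (q.2.2, q.2.1)) := pair (snd (snd id)) (fst (snd id))
    have hF : Poly (fun q : (List (List ℤ × List ℤ × ℕ) × List ℤ) × (List ℤ × List ℤ × ℕ) ×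
        List ℤ => H687R2.LLL.redStep q.2.2 q.2.1) := by
      have := redStep.comp hA
      exact this
    refine foldr (l := fun p => p.1) (s := fun p => p.2)
      (F := fun p t s => H687R2.LLL.redStep s t) (fst id) (snd id) hF
      (Polynomial.X * (Polynomial.C 4 * (Polynomial.C 3 * Polynomial.X) +
        Polynomial.C 6) + Polynomial.C 1) ?_
    rintro ⟨acc, bi⟩ k hk
    simp only
    obtain ⟨e1, e2⟩ := redFold_bound (acc.drop k) bi (sz bi) (nrm_lt bi)
    have e4 := sz_of_nrm e1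
    have e5 := sz_drop_le acc k
    have e8 := length_lt_sz bi
    simp only [sz_pair, Polynomial.eval_add, Polynomial.eval_mul, Polynomial.eval_C,
      Polynomial.eval_X]
    refine e4.trans (Nat.add_le_add_right (Nat.mul_le_mul (by omega) (by omega)) _)
  have h3 : Poly (fun p : List (List ℤ × List ℤ × ℕ) × List ℤ =>
      (p.1.foldl (H687R2.LLL.gsStep p.2) (p.2, 1)).1) := fst h1
  have h4 : Poly (fun p : List (List ℤ × List ℤ × ℕ) × List ℤ =>
      (H687R2.LLL.dot (p.1.foldl (H687R2.LLL.gsStep p.2) (p.2, 1)).1 p.2).toNat) :=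
    toNat (vdot h3 (snd id))
  exact append (fst id) (cons (pair h2 (pair h3 h4)) (const []))

end Pool.Agent.NPC.Poly
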