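import Pool.Agent.H687R2.LLLAlg

/-!
# The lattice reduction loop
-/

namespace Pool.Agent.H687R2.LLL

open scoped InnerProductSpace

/-- The Gram determinants recorded in a list of triples. -/
def tD (T : List (List ℤ × List ℤ × ℕ)) (i : ℕ) : ℕ :=
  bif decide (i = 0) then 1 else (T.getD (i - 1) ([], [], 0)).2.2

/-- The first pair of neighbours to be swapped. -/
def swapIdx (T : List (List ℤ × List ℤ × ℕ)) : Option ℕ :=
  ((List.range (T.length - 1)).filter fun i =>
    decide (2 * tD T (i + 2) * tD T i < tD T (i + 1) * tD T (i + 1))).head?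

/-- Swap two neighbours of a list. -/
def swapL (B : List (List ℤ)) (i : ℕ) : List (List ℤ) :=
  (List.range B.length).map fun j =>
    B.getD (bif decide (j = i) then i + 1 else bif decide (j = i + 1) then i else j) []

/-- The reduced vectors of a list of triples. -/
def fsts (T : List (List ℤ × List ℤ × ℕ)) : List (List ℤ) := T.map fun t => t.1

/-- One step of lattice reduction. -/
def lllStep (B : List (List ℤ)) : List (List ℤ) :=
  match swapIdx (gsr B) with
  | none => fsts (gsr B)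
  | some i => swapL (fsts (gsr B)) i

/-- The short vectors of a (reduced) basis. -/
def shortVecs (B : List (List ℤ)) (β : ℕ) : List (List ℤ) :=
  ((List.range (gsr B).length).filter fun j => (List.range (gsr B).length).any fun i =>
    decide (j ≤ i) && decide (tD (gsr B) (i + 1) ≤ β * tD (gsr B) i)).map
    fun j => ((gsr B).getD j ([], [], 0)).1

/-- The invariant of the loop. -/
structure Inv (N k : ℕ) (A : ℝ) (Z : Submodule ℤ (EuclideanSpace ℝ (Fin N)))
    (B : List (List ℤ)) : Prop where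
  len : B.length = k
  lens : ∀ u ∈ B, u.length = N
  pos : Pos (sq N B) k
  gle : ∀ j < k, ‖g (sq N B) j‖ ^ 2 ≤ A
  span : Zs (sq N B) k = Z

/-- The Lovász condition. -/
def Lov {E : Type*} [NormedAddCommGroup E] [InnerProductSpace ℝ E] [FiniteDimensional ℝ E]
    (b : ℕ → E) (k : ℕ) : Prop := ∀ i, i + 1 < k → ‖g b i‖ ^ 2 ≤ 2 * ‖g b (i + 1)‖ ^ 2

variable {N k : ℕ} {A : ℝ} {Z : Submodule ℤ (EuclideanSpace ℝ (Fin N))} {B : List (List ℤ)}

theorem gsr_facts (h : Inv N k A Z B) : (gsr B).length = k ∧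
    ∀ j (hj : j < (gsr B).length), TripleSpec N (sq N B) j (gsr B)[j] := by
  have h1 := gsr_spec B h.len h.lens h.pos k le_rfl
  rw [List.take_of_length_le (by rw [h.len])] at h1
  exact h1

theorem sq_fsts (h : Inv N k A Z B) {j : ℕ} (hj : j < k) :
    ∃ hj' : j < (gsr B).length, sq N (fsts (gsr B)) j = lv N (gsr B)[j].1 := by
  obtain ⟨h1, h2⟩ := gsr_facts h
  refine ⟨by omega, ?_⟩
  rw [sq, fsts, List.getD_eq_getElem _ _ (by simp; omega), List.getElem_map]

theorem fsts_sub (h : Inv N k A Z B) : ∀ j < k,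
    sq N (fsts (gsr B)) j - sq N B j ∈ Zs (sq N B) j := by
  intro j hj
  obtain ⟨hj', h1⟩ := sq_fsts h hj
  rw [h1]
  exact ((gsr_facts h).2 j hj').mem

theorem fsts_sub_W (h : Inv N k A Z B) : ∀ j < k,
    sq N (fsts (gsr B)) j - sq N B j ∈ W (sq N B) j := fun j hj => Zs_le_W (fsts_sub h j hj)

theorem fsts_g (h : Inv N k A Z B) : ∀ j < k, g (sq N (fsts (gsr B))) j = g (sq N B) j :=
  g_eq_of_sub_mem (fsts_sub_W h)

theorem fsts_inv (h : Inv N k A Z B) : Inv N k A Z (fsts (gsr B)) where
  len := by simp [fsts, (gsr_facts h).1]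
  lens := by
    intro u hu
    rw [fsts, List.mem_map] at hu
    obtain ⟨t, ht, rfl⟩ := hu
    obtain ⟨j, hj, rfl⟩ := List.getElem_of_mem ht
    exact ((gsr_facts h).2 j hj).len1
  pos := by
    intro j hj
    rw [gd_eq_of_sub_mem (fsts_sub_W h) h.pos j hj]
    exact h.pos j hj
  gle := by
    intro j hj
    rw [fsts_g h j hj]
    exact h.gle j hj
  span := by
    rw [← h.span]
    exact Zs_eq_of_sub_mem (fsts_sub h) k le_rfl

theorem fsts_red (h : Inv N k A Z B) : ∀ j < k, ∀ l < j,
    |⟪g (sq N (fsts (gsr B))) l, sq N (fsts (gsr B)) j⟫_ℝ| ≤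
      ‖g (sq N (fsts (gsr B))) l‖ ^ 2 / 2 := by
  intro j hj l hl
  obtain ⟨hj', h1⟩ := sq_fsts h hj
  rw [h1, fsts_g h l (by omega)]
  exact ((gsr_facts h).2 j hj').red l hl

theorem fsts_norm (h : Inv N k A Z B) : ∀ j < k, ‖sq N (fsts (gsr B)) j‖ ^ 2 ≤ k * A := by
  intro j hj
  have h1 := norm_sq_le_of_reduced (fsts_red h j hj) (A := A) (fun l hl => by
    rw [fsts_g h l (by omega)]
    exact h.gle l (by omega))
  have h0 : 0 ≤ A := le_trans (by positivity) (h.gle j hj)
  refine h1.trans (mul_le_mul_of_nonneg_right ?_ h0)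
  exact_mod_cast hj

theorem tD_eq (h : Inv N k A Z B) : ∀ i ≤ k, (tD (gsr B) i : ℝ) = gd (sq N B) i := by
  intro i hi
  rcases Nat.eq_zero_or_pos i with h0 | h0
  · subst h0
    simp [tD, gd_zero]
  · obtain ⟨h1, h2⟩ := gsr_facts h
    have h3 := (h2 (i - 1) (by omega)).d_eq
    rw [Nat.sub_add_cancel (by omega)] at h3
    rw [← h3]
    have : i ≠ 0 := by omega
    simp only [tD, this, decide_false, cond_false]
    rw [List.getD_eq_getElem _ _ (by omega)]

theorem swap_cond (h : Inv N k A Z B) {i : ℕ} (hi : i + 1 < k) :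
    2 * tD (gsr B) (i + 2) * tD (gsr B) i < tD (gsr B) (i + 1) * tD (gsr B) (i + 1) ↔
      2 * ‖g (sq N B) (i + 1)‖ ^ 2 < ‖g (sq N B) i‖ ^ 2 := by
  have h1 := h.pos i (by omega)
  have h2 := h.pos (i + 1) (by omega)
  have h3 := h.pos.g_pos (j := i) (by omega)
  rw [← Nat.cast_lt (α := ℝ)]
  push_cast
  rw [tD_eq h _ (by omega), tD_eq h _ (by omega), tD_eq h _ (by omega)]
  rw [gd_succ (i := i + 1) h2.ne', gd_succ (i := i) h1.ne']
  set a := gd (sq N B) i
  set x := ‖g (sq N B) i‖ ^ 2
  set y := ‖g (sq N B) (i + 1)‖ ^ 2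
  have h4 : 0 < a * a * x := by positivity
  constructor
  · intro h5
    by_contra h6
    push Not at h6
    nlinarith
  · intro h5
    nlinarith

theorem swapIdx_none (h : Inv N k A Z B) (hn : swapIdx (gsr B) = none) : Lov (sq N B) k := by
  intro i hi
  by_contra h1
  push Not at h1
  rw [← swap_cond h hi] at h1
  rw [swapIdx, List.head?_eq_none_iff, List.filter_eq_nil_iff] at hn
  have := hn i (by rw [List.mem_range, (gsr_facts h).1]; omega)
  simp only [decide_eq_true_eq] at this
  exact this h1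

theorem swapIdx_some (h : Inv N k A Z B) {i : ℕ} (hn : swapIdx (gsr B) = some i) :
    i + 1 < k ∧ 2 * ‖g (sq N B) (i + 1)‖ ^ 2 < ‖g (sq N B) i‖ ^ 2 := by
  rw [swapIdx] at hn
  have h1 := List.mem_of_mem_head? hn
  rw [List.mem_filter, List.mem_range, (gsr_facts h).1, decide_eq_true_eq] at h1
  have h2 : i + 1 < k := by omega
  exact ⟨h2, (swap_cond h h2).1 h1.2⟩

theorem sq_swapL (B : List (List ℤ)) {i : ℕ} (hi : i + 1 < B.length) :
    sq N (swapL B i) = sw (sq N B) i := by
  funext j
  rcases Nat.lt_or_ge j B.length with hj | hj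
  · rw [sq, swapL, List.getD_eq_getElem _ _ (by simpa using hj)]
    simp only [List.getElem_map, List.getElem_range, sw]
    rcases eq_or_ne j i with rfl | h1
    · simp [sq]
    · rcases eq_or_ne j (i + 1) with rfl | h2
      · simp [sq]
      · rw [Equiv.swap_apply_of_ne_of_ne h1 h2]
        simp [h1, h2, sq]
  · rw [sw_of_ne _ _ (by omega) (by omega), sq, sq, List.getD_eq_default _ _ (by simpa [swapL]),
      List.getD_eq_default _ _ (by omega)]

theorem swapL_inv (h : Inv N k A Z B) {i : ℕ} (hi : i + 1 < k)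
    (hμ : |⟪g (sq N B) i, sq N B (i + 1)⟫_ℝ| ≤ ‖g (sq N B) i‖ ^ 2 / 2)
    (hlov : 2 * ‖g (sq N B) (i + 1)‖ ^ 2 < ‖g (sq N B) i‖ ^ 2) : Inv N k A Z (swapL B i) := by
  have hsq := sq_swapL (N := N) B (i := i) (by rw [h.len]; exact hi)
  refine ⟨by simp [swapL, h.len], ?_, ?_, ?_, ?_⟩
  · intro u hu
    rw [swapL, List.mem_map] at hu
    obtain ⟨j, hj, rfl⟩ := hu
    rw [List.mem_range, h.len] at hj
    apply h.lens
    rw [List.getD_eq_getElem]
    · exact List.getElem_mem _
    · rcases eq_or_ne j i with rfl | h1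
      · simp [h.len]; omega
      · rcases eq_or_ne j (i + 1) with rfl | h2
        · simp [h.len]; omega
        · simp [h1, h2, h.len]; omega
  · rw [hsq]; exact swap_pos h.pos hi
  · intro j hj
    rw [hsq]
    have hgi := h.gle i (by omega)
    have hgi0 : 0 ≤ ‖g (sq N B) i‖ ^ 2 := by positivity
    rcases lt_trichotomy j i with h1 | h1 | h1
    · rw [g_sw_of_lt h1]; exact h.gle j hj
    · subst h1
      have := swap_step h.pos hi hμ hlov
      linarith
    · rcases eq_or_ne j (i + 1) with h2 | h2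
      · subst h2
        exact g_sw_succ_le.trans hgi
      · rw [g_sw_of_gt (by omega)]; exact h.gle j hj
  · rw [hsq, Zs_sw (by omega)]; exact h.span

theorem lllStep_inv (h : Inv N k A Z B) : Inv N k A Z (lllStep B) := by
  unfold lllStep
  cases hs : swapIdx (gsr B) with
  | none => exact fsts_inv h
  | some i =>
    obtain ⟨h1, h2⟩ := swapIdx_some h hs
    refine swapL_inv (fsts_inv h) h1 (fsts_red h (i + 1) h1 i (by omega)) ?_
    rw [fsts_g h _ (by omega), fsts_g h _ (by omega)]
    exact h2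

theorem lllStep_norm (h : Inv N k A Z B) : ∀ u ∈ lllStep B, ‖lv N u‖ ^ 2 ≤ k * A := by
  have h0 : ∀ u ∈ fsts (gsr B), ‖lv N u‖ ^ 2 ≤ k * A := by
    intro u hu
    obtain ⟨j, hj, rfl⟩ := List.getElem_of_mem hu
    have hj' : j < k := by rw [(fsts_inv h).len] at hj; exact hj
    have h1 := fsts_norm h j hj'
    rwa [sq, List.getD_eq_getElem _ _ hj] at h1
  unfold lllStep
  cases hs : swapIdx (gsr B) with
  | none => exact h0
  | some i =>
    obtain ⟨h1, h2⟩ := swapIdx_some h hs
    intro u hu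
    simp only [swapL, List.mem_map] at hu
    obtain ⟨j, hj, rfl⟩ := hu
    rw [List.mem_range, (fsts_inv h).len] at hj
    apply h0
    rw [List.getD_eq_getElem]
    · exact List.getElem_mem _
    · rcases eq_or_ne j i with rfl | h3
      · simp [(fsts_inv h).len]; omega
      · rcases eq_or_ne j (i + 1) with rfl | h4
        · simp [(fsts_inv h).len]; omega
        · simp [h3, h4, (fsts_inv h).len]; omega

theorem lllStep_lov (h : Inv N k A Z B) (hl : Lov (sq N B) k) : Lov (sq N (lllStep B)) k := by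
  unfold lllStep
  cases hs : swapIdx (gsr B) with
  | none =>
    intro i hi
    rw [fsts_g h _ (by omega), fsts_g h _ (by omega)]
    exact hl i hi
  | some i =>
    obtain ⟨h1, h2⟩ := swapIdx_some h hs
    have := hl i h1
    linarith

theorem lllStep_pot (h : Inv N k A Z B) (hl : ¬ Lov (sq N B) k) :
    pot (sq N (lllStep B)) k ≤ 3 / 4 * pot (sq N B) k := by
  unfold lllStep
  cases hs : swapIdx (gsr B) with
  | none => exact absurd (swapIdx_none h hs) hl
  | some i =>
    obtain ⟨h1, h2⟩ := swapIdx_some h hs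
    simp only
    rw [sq_swapL (N := N) _ (by rw [(fsts_inv h).len]; exact h1),
      ← pot_eq_of_sub_mem (fsts_sub_W h) h.pos]
    refine swap_pot (fsts_inv h).pos h1 (fsts_red h (i + 1) h1 i (by omega)) ?_
    rw [fsts_g h _ (by omega), fsts_g h _ (by omega)]
    exact h2

theorem iter_inv (h : Inv N k A Z B) (t : ℕ) : Inv N k A Z (lllStep^[t] B) := by
  induction t with
  | zero => exact h
  | succ t ih => rw [Function.iterate_succ_apply']; exact lllStep_inv ih

theorem iter_lov_or (h : Inv N k A Z B) (t : ℕ) : Lov (sq N (lllStep^[t] B)) k ∨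
    pot (sq N (lllStep^[t] B)) k ≤ (3 / 4) ^ t * pot (sq N B) k := by
  induction t with
  | zero => right; simp
  | succ t ih =>
    rw [Function.iterate_succ_apply']
    by_cases hl : Lov (sq N (lllStep^[t] B)) k
    · left; exact lllStep_lov (iter_inv h t) hl
    · right
      have h1 := ih.resolve_left hl
      have h2 := lllStep_pot (iter_inv h t) hl
      calc _ ≤ 3 / 4 * pot (sq N (lllStep^[t] B)) k := h2
        _ ≤ 3 / 4 * ((3 / 4) ^ t * pot (sq N B) k) := by linarith
        _ = (3 / 4) ^ (t + 1) * pot (sq N B) k := by ring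

theorem one_le_pot (h : Inv N k A Z B) : 1 ≤ pot (sq N B) k := by
  unfold pot
  have h1 : ∀ j ∈ Finset.range (k + 1), 1 ≤ gd (sq N B) j := by
    intro j hj
    have hj' : j ≤ k := by simp at hj; omega
    obtain ⟨z, hz⟩ := gd_int (b := sq N B) (i := j) fun p _ => isInt_lv _ _
    have h2 := h.pos j hj'
    rw [hz] at h2 ⊢
    have h3 : 0 < z := by exact_mod_cast h2
    exact_mod_cast h3
  have h2 : ∏ j ∈ Finset.range (k + 1), (1 : ℝ) ≤ ∏ j ∈ Finset.range (k + 1), gd (sq N B) j :=
    Finset.prod_le_prod (fun _ _ => zero_le_one) h1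
  simpa using h2

theorem iter_lov (h : Inv N k A Z B) (hA : 1 ≤ A) {t : ℕ}
    (ht : A ^ (k * (k + 1)) < (4 / 3) ^ t) : Lov (sq N (lllStep^[t] B)) k := by
  by_contra hl
  have h1 := (iter_lov_or h t).resolve_left hl
  have h2 := one_le_pot (iter_inv h t)
  have h3 := pot_le h.pos hA h.gle
  have h4 : (3 / 4 : ℝ) ^ t * pot (sq N B) k < 1 := by
    have h5 : (3 / 4 : ℝ) ^ t * (4 / 3) ^ t = 1 := by rw [← mul_pow]; norm_num
    have h6 : (0 : ℝ) < (3 / 4) ^ t := by positivity
    nlinarith
  linarith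

/-- The specification of the list of short vectors. -/
theorem shortVecs_spec (h : Inv N k A Z B) (hl : Lov (sq N B) k) (β : ℕ) :
    (∀ u ∈ shortVecs B β, u.length = N ∧ ‖lv N u‖ ^ 2 ≤ 4 ^ k * β ∧ lv N u ∈ Z) ∧
    (∀ x ∈ Z, ‖x‖ ^ 2 ≤ β → x ∈ Submodule.span ℤ {y | ∃ u ∈ shortVecs B β, lv N u = y}) := by
  obtain ⟨hT, hspec⟩ := gsr_facts h
  set b := sq N (fsts (gsr B)) with hb
  have hcond : ∀ i < k, (tD (gsr B) (i + 1) ≤ β * tD (gsr B) i ↔ ‖g b i‖ ^ 2 ≤ β) := by
    intro i hi
    rw [← Nat.cast_le (α := ℝ)]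
    push_cast
    have h1 := h.pos i (by omega)
    rw [tD_eq h _ (by omega), tD_eq h _ (by omega), gd_succ h1.ne', hb, fsts_g h i hi, mul_comm]
    exact mul_le_mul_iff_left₀ h1
  have hmem : ∀ j, (∃ i < k, j ≤ i ∧ ‖g b i‖ ^ 2 ≤ β) →
      ∃ u ∈ shortVecs B β, lv N u = b j := by
    rintro j ⟨i, hi, hji, hg⟩
    obtain ⟨hj', h1⟩ := sq_fsts h (show j < k by omega)
    refine ⟨(gsr B)[j].1, ?_, by rw [← h1]⟩
    simp only [shortVecs, List.mem_map]
    refine ⟨j, ?_, by rw [List.getD_eq_getElem _ _ hj']⟩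
    rw [List.mem_filter, List.mem_range]
    refine ⟨hj', ?_⟩
    rw [List.any_eq_true]
    refine ⟨i, by rw [List.mem_range]; omega, ?_⟩
    simp only [hji, decide_true, Bool.true_and, decide_eq_true_eq]
    exact (hcond i hi).2 hg
  constructor
  · intro u hu
    simp only [shortVecs, List.mem_map] at hu
    obtain ⟨j, hj, rfl⟩ := hu
    rw [List.mem_filter, List.mem_range, List.any_eq_true] at hj
    obtain ⟨hj1, i, hi, hij⟩ := hj
    rw [List.mem_range] at hi
    simp only [Bool.and_eq_true, decide_eq_true_eq] at hij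
    have hi' : i < k := by omega
    have h2 := (hcond i hi').1 hij.2
    obtain ⟨hj', h3⟩ := sq_fsts h (show j < k by omega)
    rw [List.getD_eq_getElem _ _ hj1, ← h3]
    refine ⟨(hspec j hj1).len1, ?_, ?_⟩
    · refine short_of_reduced (b := b) ?_ (fsts_red h) hi' hij.1 h2
      intro i hi
      rw [hb, fsts_g h _ (by omega), fsts_g h _ (by omega)]
      exact hl i hi
    · rw [← (fsts_inv h).span]
      exact mem_Zs (by omega)
  · intro x hx hxβ
    rw [← (fsts_inv h).span] at hx
    obtain ⟨c, hc⟩ : ∃ c : ℕ → ℤ, x = ∑ j ∈ Finset.range k, (c j : ℝ) • b j := by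
      have : ∀ n ≤ k, ∀ x ∈ Zs b n, ∃ c : ℕ → ℤ, x = ∑ j ∈ Finset.range n, (c j : ℝ) • b j := by
        intro n
        induction n with
        | zero =>
          intro _ x hx
          refine ⟨fun _ => 0, ?_⟩
          simpa [Zs] using hx
        | succ n ih =>
          intro hn x hx
          rw [Zs_succ, Submodule.mem_sup] at hx
          obtain ⟨y, hy, z, hz, rfl⟩ := hx
          obtain ⟨c, rfl⟩ := ih (by omega) y hy
          obtain ⟨d, rfl⟩ := Submodule.mem_span_singleton.1 hz
          refine ⟨fun j => if j = n then d else c j, ?_⟩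
          rw [Finset.sum_range_succ]
          simp only [if_true]
          rw [← Int.cast_smul_eq_zsmul ℝ]
          congr 1
          refine Finset.sum_congr rfl fun j hj => ?_
          have : j ≠ n := by simp at hj; omega
          simp [this]
      exact this k le_rfl x hx
    rw [hc] at hxβ ⊢
    refine Submodule.sum_mem _ fun j hj => ?_
    by_cases hcj : c j = 0
    · simp [hcj]
    · obtain ⟨u, hu, hu2⟩ := hmem j (lattice_short c hxβ (by simpa using hj) hcj)
      rw [Int.cast_smul_eq_zsmul]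
      refine Submodule.smul_mem _ _ (Submodule.subset_span ⟨u, hu, hu2⟩)

end Pool.Agent.H687R2.LLL
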