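import Pool.Agent.H687R2.LLLMain

/-!
# Short integer relations by lattice reduction
-/

namespace Pool.Agent.H687R2.LLL

open Pool.Agent.NPC
open scoped InnerProductSpace

/-- The rows of the identity matrix. -/
def idRows {α : Type} (l : List α) : List (List ℤ) :=
  (List.range l.length).map fun i => (List.range l.length).map fun j =>
    bif decide (j = i) then 1 else 0

/-- The rows of a matrix, preceded by the rows of the identity matrix. -/
def aug (X : List (List ℤ)) : List (List ℤ) := List.zipWith (fun x y => x ++ y) (idRows X) X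

/-- Short integer combinations of the rows of `X` with short value. -/
def relShort (X : List (List ℤ)) (T β : ℕ) : List (List ℤ) :=
  (lllShort (aug X) T β).map fun u => u.take X.length

/-- The `j`-th coordinate of the combination of the rows of `X` with coefficients `x`. -/
def form (X : List (List ℤ)) (x : ℕ → ℤ) (j : ℕ) : ℤ :=
  ∑ i ∈ Finset.range X.length, x i * (X.getD i []).getD j 0

/-- The entries of a list. -/
def ent (u : List ℤ) : ℕ → ℤ := fun i => u.getD i 0

variable {X : List (List ℤ)} {q T β : ℕ}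

theorem length_aug (X : List (List ℤ)) : (aug X).length = X.length := by
  simp [aug, idRows]

theorem getElem_aug {i : ℕ} (hi : i < X.length) : (aug X)[i]'(by rw [length_aug]; exact hi) =
    ((List.range X.length).map fun j => bif decide (j = i) then (1 : ℤ) else 0) ++ X[i] := by
  simp [aug, idRows]

theorem aug_len (hq : ∀ r ∈ X, r.length = q) : ∀ u ∈ aug X, u.length = X.length + q := by
  intro u hu
  obtain ⟨i, hi, rfl⟩ := List.getElem_of_mem hu
  rw [length_aug] at hi
  rw [getElem_aug hi, List.length_append, hq _ (List.getElem_mem _)]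
  simp

theorem sq_aug_lt {i : ℕ} (hi : i < X.length) {p : ℕ} (hp : p < X.length)
    (hp' : p < X.length + q) :
    sq (X.length + q) (aug X) i ⟨p, hp'⟩ = if p = i then 1 else 0 := by
  rw [sq, lv_apply, List.getD_eq_getElem (aug X) _ (by rw [length_aug]; exact hi), getElem_aug hi]
  rw [List.getD_append _ _ _ _ (by simpa using hp), List.getD_eq_getElem _ _ (by simpa using hp)]
  simp only [List.getElem_map, List.getElem_range]
  by_cases h : p = i <;> simp [h]

theorem sq_aug_ge {i : ℕ} (hi : i < X.length) {j : ℕ} (hp' : X.length + j < X.length + q) :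
    sq (X.length + q) (aug X) i ⟨X.length + j, hp'⟩ = ((X.getD i []).getD j 0 : ℤ) := by
  rw [sq, lv_apply, List.getD_eq_getElem (aug X) _ (by rw [length_aug]; exact hi), getElem_aug hi]
  rw [List.getD_append_right _ _ _ _ (by simp), List.getD_eq_getElem X _ hi]
  simp

theorem pos_aug : Pos (sq (X.length + q) (aug X)) X.length := by
  intro j
  induction j with
  | zero => intro _; rw [gd_zero]; exact one_pos
  | succ j ih =>
    intro hj
    have h1 := ih (by omega)
    rw [gd_succ h1.ne']
    refine mul_pos h1 ?_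
    by_contra h2
    have h3 : g (sq (X.length + q) (aug X)) j = 0 := by
      have h4 : ‖g (sq (X.length + q) (aug X)) j‖ ^ 2 = 0 :=
        le_antisymm (not_lt.1 h2) (by positivity)
      have h5 : ‖g (sq (X.length + q) (aug X)) j‖ = 0 := by
        simpa using h4
      exact norm_eq_zero.1 h5
    have h4 := sub_P_mem (b := sq (X.length + q) (aug X)) (i := j)
      (sq (X.length + q) (aug X) j)
    have h5 : P (sq (X.length + q) (aug X)) j (sq (X.length + q) (aug X) j) = 0 := h3
    rw [h5, sub_zero] at h4
    have h6 : ∀ y ∈ W (sq (X.length + q) (aug X)) j, y ⟨j, by omega⟩ = 0 := by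
      intro y hy
      refine Submodule.span_induction (p := fun y _ => y ⟨j, by omega⟩ = 0) ?_ ?_ ?_ ?_ hy
      · rintro x ⟨i, hi, rfl⟩
        have hi' : i < j := hi
        rw [sq_aug_lt (by omega) (by omega)]
        simp; omega
      · rfl
      · intro x y _ _ hx hy; simp [hx, hy]
      · intro c x _ hx; simp [hx]
    have h7 := h6 _ h4
    rw [sq_aug_lt (by omega) (by omega)] at h7
    simp at h7

theorem nrm_append (u v : List ℤ) : nrm (u ++ v) = nrm u + nrm v := by
  simp [nrm]

theorem nrm_idRow (k i : ℕ) : nrm ((List.range k).map fun j =>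
    bif decide (j = i) then (1 : ℤ) else 0) ≤ 1 := by
  have h : ∀ k, nrm ((List.range k).map fun j => bif decide (j = i) then (1 : ℤ) else 0) =
      if i < k then 1 else 0 := by
    intro k
    induction k with
    | zero => simp
    | succ k ih =>
      rw [List.range_succ, List.map_append, nrm_append, ih]
      simp only [List.map_cons, List.map_nil, nrm_cons, nrm_nil]
      rcases lt_trichotomy i k with h | h | h
      · have h1 : k ≠ i := by omega
        have h2 : i < k + 1 := by omega
        simp [h, h1, h2]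
      · subst h; simp
      · have h1 : k ≠ i := by omega
        have h2 : ¬ i < k := by omega
        have h3 : ¬ i < k + 1 := by omega
        simp [h1, h2, h3]
  rw [h]
  split_ifs <;> omega

theorem norm_sq_le_nrm {N : ℕ} {u : List ℤ} (hu : u.length = N) : ‖lv N u‖ ^ 2 ≤ (nrm u : ℝ) ^ 2 := by
  rw [norm_sq_lv hu]
  have h1 := natAbs_dot_le u u
  have h3 : dot u u ≤ ((nrm u * nrm u : ℕ) : ℤ) := by omega
  have h4 : ((dot u u : ℤ) : ℝ) ≤ ((nrm u * nrm u : ℕ) : ℤ) := by exact_mod_cast h3
  refine h4.trans ?_
  push_cast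
  rw [pow_two]

theorem inv_aug (hq : ∀ r ∈ X, r.length = q) (hT : ∀ r ∈ X, nrm r < 2 ^ T) :
    Inv (X.length + q) (aug X).length (4 ^ T)
      (Zs (sq (X.length + q) (aug X)) X.length) (aug X) := by
  refine ⟨rfl, aug_len hq, by rw [length_aug]; exact pos_aug, fun j hj => ?_,
    by rw [length_aug]⟩
  have hj' : j < X.length := by rw [length_aug] at hj; exact hj
  have e1 := norm_g_le (sq (X.length + q) (aug X)) j
  have e2 : ‖sq (X.length + q) (aug X) j‖ ^ 2 ≤ 4 ^ T := by
    rw [sq, List.getD_eq_getElem _ _ hj]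
    refine (norm_sq_le_nrm (aug_len hq _ (List.getElem_mem _))).trans ?_
    rw [getElem_aug hj', nrm_append]
    have e3 := nrm_idRow X.length j
    have e4 := hT _ (List.getElem_mem (h := hj'))
    have e5 : nrm ((List.range X.length).map fun i => bif decide (i = j) then (1 : ℤ) else 0) +
      nrm X[j] ≤ 2 ^ T := by omega
    have e6 : ((nrm ((List.range X.length).map fun i => bif decide (i = j) then (1 : ℤ) else 0) +
      nrm X[j] : ℕ) : ℝ) ≤ 2 ^ T := by exact_mod_cast e5
    refine (pow_le_pow_left₀ (by positivity) e6 2).trans_eq ?_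
    rw [← pow_mul, mul_comm, pow_mul]; norm_num
  exact (pow_le_pow_left₀ (norm_nonneg _) e1 2).trans e2

/-- The lattice vector with coefficients `c`. -/
noncomputable def lat (X : List (List ℤ)) (q : ℕ) (c : ℕ → ℤ) :
    EuclideanSpace ℝ (Fin (X.length + q)) :=
  ∑ i ∈ Finset.range X.length, (c i : ℝ) • sq (X.length + q) (aug X) i

theorem exists_lat {x : EuclideanSpace ℝ (Fin (X.length + q))}
    (hx : x ∈ Zs (sq (X.length + q) (aug X)) X.length) : ∃ c : ℕ → ℤ, x = lat X q c := by
  have : ∀ n ≤ X.length, ∀ x ∈ Zs (sq (X.length + q) (aug X)) n,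
      ∃ c : ℕ → ℤ, x = ∑ j ∈ Finset.range n, (c j : ℝ) • sq (X.length + q) (aug X) j := by
    intro n
    induction n with
    | zero =>
      intro _ x hx
      refine ⟨fun _ => 0, ?_⟩
      simpa [Zs] using hx
    | succ n ih =>
      intro hn x hx
      rw [Zs_succ, Submodule.mem_sup] at hx
      obtain ⟨y, hy, z, hz, rfl⟩ := hx
      obtain ⟨c, rfl⟩ := ih (by omega) y hy
      obtain ⟨d, rfl⟩ := Submodule.mem_span_singleton.1 hz
      refine ⟨fun j => if j = n then d else c j, ?_⟩
      rw [Finset.sum_range_succ]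
      simp only [if_true]
      rw [← Int.cast_smul_eq_zsmul ℝ]
      congr 1
      refine Finset.sum_congr rfl fun j hj => ?_
      have : j ≠ n := by simp at hj; omega
      simp [this]
  exact this _ le_rfl x hx

theorem lat_mem (c : ℕ → ℤ) : lat X q c ∈ Zs (sq (X.length + q) (aug X)) X.length := by
  refine Submodule.sum_mem _ fun i hi => ?_
  rw [Int.cast_smul_eq_zsmul]
  exact Submodule.smul_mem _ _ (mem_Zs (by simpa using hi))

theorem lat_lt (c : ℕ → ℤ) {p : ℕ} (hp : p < X.length) (hp' : p < X.length + q) :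
    lat X q c ⟨p, hp'⟩ = c p := by
  have h : lat X q c ⟨p, hp'⟩ = ∑ i ∈ Finset.range X.length,
      (c i : ℝ) * sq (X.length + q) (aug X) i ⟨p, hp'⟩ := by
    simp [lat]
  rw [h, Finset.sum_eq_single p]
  · rw [sq_aug_lt hp hp]; simp
  · intro i hi hne
    rw [sq_aug_lt (by simpa using hi) hp]
    simp [hne.symm]
  · intro h; simp at h; omega

theorem lat_ge (c : ℕ → ℤ) {j : ℕ} (hp' : X.length + j < X.length + q) :
    lat X q c ⟨X.length + j, hp'⟩ = form X c j := by
  have h : lat X q c ⟨X.length + j, hp'⟩ = ∑ i ∈ Finset.range X.length,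
      (c i : ℝ) * sq (X.length + q) (aug X) i ⟨X.length + j, hp'⟩ := by
    simp [lat]
  rw [h, form]
  push_cast
  refine Finset.sum_congr rfl fun i hi => ?_
  rw [sq_aug_ge (by simpa using hi)]

theorem norm_sq_lat (c : ℕ → ℤ) : ‖lat X q c‖ ^ 2 =
    ((∑ i ∈ Finset.range X.length, c i ^ 2 + ∑ j ∈ Finset.range q, form X c j ^ 2 : ℤ) : ℝ) := by
  rw [EuclideanSpace.norm_sq_eq, Fin.sum_univ_add]
  push_cast
  congr 1
  · rw [← Fin.sum_univ_eq_sum_range (fun i => (c i : ℝ) ^ 2)]
    refine Finset.sum_congr rfl fun i _ => ?_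
    have : Fin.castAdd q i = ⟨i, by omega⟩ := rfl
    rw [this, lat_lt c i.2, Real.norm_eq_abs, sq_abs]
  · rw [← Fin.sum_univ_eq_sum_range (fun j => (form X c j : ℝ) ^ 2)]
    refine Finset.sum_congr rfl fun i _ => ?_
    have : Fin.natAdd X.length i = ⟨X.length + i, by omega⟩ := rfl
    rw [this, lat_ge c, Real.norm_eq_abs, sq_abs]

/-- The elements of `relShort` are short. -/
theorem relShort_short (hq : ∀ r ∈ X, r.length = q) (hT : ∀ r ∈ X, nrm r < 2 ^ T)
    (hk : X.length ≤ T) (β : ℕ) {u : List ℤ} (hu : u ∈ relShort X T β) :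
    u.length = X.length ∧ ∑ i ∈ Finset.range X.length, ent u i ^ 2 +
      ∑ j ∈ Finset.range q, form X (ent u) j ^ 2 ≤ 4 ^ X.length * β := by
  rw [relShort, List.mem_map] at hu
  obtain ⟨v, hv, rfl⟩ := hu
  obtain ⟨h1, h2, h3⟩ := (lllShort_spec (inv_aug hq hT) (by rw [length_aug]; exact hk) β).1 v hv
  obtain ⟨c, hc⟩ := exists_lat h3
  have hlen : (v.take X.length).length = X.length := by simp [h1]
  refine ⟨hlen, ?_⟩
  have h4 : ∀ i < X.length, ent (v.take X.length) i = c i := by
    intro i hi
    have h5 := lat_lt (X := X) (q := q) c hi (by omega)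
    rw [← hc, lv_apply] at h5
    have h6 : v.getD i 0 = c i := by simpa using h5
    rw [← h6, ent, List.getD_eq_getElem _ _ (by omega), List.getElem_take,
      List.getD_eq_getElem _ _ (by omega)]
  have h5 : ∀ j, form X (ent (v.take X.length)) j = form X c j := by
    intro j
    refine Finset.sum_congr rfl fun i hi => ?_
    rw [h4 i (by simpa using hi)]
  have h6 : ∑ i ∈ Finset.range X.length, ent (v.take X.length) i ^ 2 =
      ∑ i ∈ Finset.range X.length, c i ^ 2 := by
    refine Finset.sum_congr rfl fun i hi => ?_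
    rw [h4 i (by simpa using hi)]
  simp only [h5, h6]
  rw [hc, norm_sq_lat, length_aug] at h2
  exact_mod_cast h2

/-- Every short relation is an integer combination of elements of `relShort`. -/
theorem relShort_span (hq : ∀ r ∈ X, r.length = q) (hT : ∀ r ∈ X, nrm r < 2 ^ T)
    (hk : X.length ≤ T) (β : ℕ) (c : ℕ → ℤ)
    (hc : ∑ i ∈ Finset.range X.length, c i ^ 2 +
      ∑ j ∈ Finset.range q, form X c j ^ 2 ≤ β) :
    (fun i : Fin X.length => c i) ∈ Submodule.span ℤ
      {y : Fin X.length → ℤ | ∃ u ∈ relShort X T β, y = fun i : Fin X.length => ent u i} := by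
  have h1 := (lllShort_spec (inv_aug hq hT) (by rw [length_aug]; exact hk) β).2 (lat X q c)
    (lat_mem c) (by rw [norm_sq_lat]; exact_mod_cast hc)
  -- transfer by the statement: there is an integer vector with these first coordinates
  have key : ∀ y ∈ Submodule.span ℤ {y | ∃ u ∈ lllShort (aug X) T β, lv (X.length + q) u = y},
      ∃ z ∈ Submodule.span ℤ
        {y : Fin X.length → ℤ | ∃ u ∈ relShort X T β, y = fun i : Fin X.length => ent u i},
        ∀ i : Fin X.length, (z i : ℝ) = y ⟨i, by omega⟩ := by
    intro y hy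
    refine Submodule.span_induction (p := fun y _ => ∃ z ∈ Submodule.span ℤ
        {y : Fin X.length → ℤ | ∃ u ∈ relShort X T β, y = fun i : Fin X.length => ent u i},
        ∀ i : Fin X.length, (z i : ℝ) = y ⟨i, by omega⟩) ?_ ?_ ?_ ?_ hy
    · rintro _ ⟨u, hu, rfl⟩
      have hlen := ((lllShort_spec (inv_aug hq hT) (by rw [length_aug]; exact hk) β).1 u hu).1
      refine ⟨_, Submodule.subset_span ⟨u.take X.length, ?_, rfl⟩, ?_⟩
      · exact List.mem_map.2 ⟨u, hu, rfl⟩
      · intro i
        rw [lv_apply, ent, List.getD_eq_getElem _ _ (by simp [hlen]), List.getElem_take,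
          List.getD_eq_getElem _ _ (by simp [hlen]; omega)]
    · exact ⟨0, Submodule.zero_mem _, fun i => by simp⟩
    · rintro x y _ _ ⟨z, hz, hz'⟩ ⟨w, hw, hw'⟩
      exact ⟨z + w, Submodule.add_mem _ hz hw, fun i => by simp [hz', hw']⟩
    · rintro a x _ ⟨z, hz, hz'⟩
      exact ⟨a • z, Submodule.smul_mem _ _ hz, fun i => by simp [hz']⟩
  obtain ⟨z, hz, hz'⟩ := key _ h1
  have : (fun i : Fin X.length => c i) = z := by
    funext i
    have := hz' i
    rw [lat_lt c i.2] at this
    exact_mod_cast this.symm
  rw [this]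
  exact hz

end Pool.Agent.H687R2.LLL

namespace Pool.Agent.NPC.Poly

open Pool.Agent.H687R2.LLL

variable {α β γ δ σ : Type} [TEnc α] [TEnc β] [TEnc γ] [TEnc δ] [TEnc σ]

theorem take_length {l : α → List β} {l' : α → List γ} (hl : Poly l) (hl' : Poly l') :
    Poly (fun a => (l a).take (l' a).length) := by
  refine (map (F := fun (_ : α) (p : β × γ) => p.1) (zip hl hl') (fst (snd id))).congr fun a => ?_
  have key : ∀ (l : List β) (l' : List γ), (l.zip l').map (fun p => p.1) = l.take l'.length := by
    intro l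
    induction l with
    | nil => intro l'; simp
    | cons x l ih =>
      intro l'
      cases l' with
      | nil => simp
      | cons y l' => simp [ih]
  exact key _ _

theorem aug {X : α → List (List ℤ)} (hX : Poly X) : Poly (fun a => H687R2.LLL.aug (X a)) := by
  have h0 : Poly (fun p : (α × ℕ) × ℕ => (bif decide (p.2 = p.1.2) then (1 : ℤ) else 0)) :=
    cond (decide_eq (snd id) (snd (fst id))) (const 1) (const 0)
  have h1 : Poly (fun p : α × ℕ => (List.range (X p.1).length).map fun j =>
      bif decide (j = p.2) then (1 : ℤ) else 0) :=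
    map (F := fun (p : α × ℕ) j => bif decide (j = p.2) then (1 : ℤ) else 0)
      (range_length (hX.comp (fst id))) h0
  have h2 : Poly (fun a => H687R2.LLL.idRows (X a)) :=
    map (F := fun a i => (List.range (X a).length).map fun j =>
      bif decide (j = i) then (1 : ℤ) else 0) (range_length hX) h1
  exact zipWith (F := fun (_ : α) (x y : List ℤ) => x ++ y) h2 hX
    (append (fst (snd id)) (snd (snd id)))

theorem relShort {X : α → List (List ℤ)} {T β : α → ℕ} (hX : Poly X) (hT : UPoly T)
    (hβ : Poly β) (hq : ∀ a, ∃ q, ∀ r ∈ X a, r.length = q) (hb : ∀ a, ∀ r ∈ X a, nrm r < 2 ^ T a)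
    (hk : ∀ a, (X a).length ≤ T a) :
    Poly (fun a => H687R2.LLL.relShort (X a) (T a) (β a)) := by
  have h1 := lllShort (aug hX) hT hβ (fun a => by
    obtain ⟨q, hq⟩ := hq a
    exact ⟨_, _, inv_aug hq (hb a)⟩) (fun a => by rw [length_aug]; exact hk a)
  have h2 : Poly (fun p : α × List ℤ => p.2.take (X p.1).length) :=
    take_length (snd id) (hX.comp (fst id))
  exact map (F := fun a (u : List ℤ) => u.take (X a).length) h1 h2

end Pool.Agent.NPC.Poly
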